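import Pool.Agent.H57.TLS.Def

/-!
[H57 TLS HAR]  The harmonic sum over the ideals, uniformly in the field of degree `n`.

Choose an index `i v : Fin n` for every prime `v` such that the primes over the same rational prime have different indices (there
are at most `n` of them, `har_fibre`). `φ I j = ∏_{v, i v = j} (nm v)^(mult_v I)`; then `∏ j, φ I j = N I` and `I ↦ φ I` is injective (the
exponent of `ℓ` in `φ I j` is `f mult_v I` for the prime `v` over `ℓ` with index `j`). So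
`∑_{N I ≤ Z} 1 / N I ≤ (∑_{m ≤ Z} 1 / m)^n ≤ (1 + log Z)^n ≤ (1 + 1 / log 2)^n (log Z)^n`.
-/

set_option autoImplicit false

open scoped NumberField
open NumberField H63.MA H36.QA

noncomputable section

namespace H57.TLS

variable {F : Type} [Field F] [NumberField F]

private theorem har_pow (v : Pl F) :
    (nm v).minFac.Prime ∧ ∃ f : ℕ, 1 ≤ f ∧ nm v = (nm v).minFac ^ f := by
  have hmax : v.asIdeal.IsMaximal := v.isMaximal
  obtain ⟨p, n, hn, -, hp, h⟩ := Ideal.exists_prime_and_absNorm_eq_pow v.asIdeal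
  have h1 : nm v = p ^ n := h
  have h2 : (nm v).minFac = p := by
    rw [h1]
    exact hp.pow_minFac (Nat.pos_iff_ne_zero.1 hn)
  rw [h2]
  exact ⟨hp, n, hn, h1⟩

private theorem har_mem (v : Pl F) : (((nm v).minFac : ℕ) : 𝓞 F) ∈ v.asIdeal := by
  obtain ⟨-, f, -, hf⟩ := har_pow v
  have h1 : ((nm v : ℕ) : 𝓞 F) ∈ v.asIdeal := Ideal.absNorm_mem v.asIdeal
  have hp := v.isPrime
  apply hp.mem_of_pow_mem f
  rw [← Nat.cast_pow, ← hf]
  exact h1

private theorem har_pos (v : Pl F) : 0 < nm v := by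
  obtain ⟨h1, f, -, hf⟩ := har_pow v
  rw [hf]
  exact pow_pos h1.pos f

private theorem har_fibre (ℓ : ℕ) (s : Finset (Pl F)) (hs : ∀ v ∈ s, (nm v).minFac = ℓ) :
    s.card ≤ Module.finrank ℚ F := by
  classical
  rcases s.eq_empty_or_nonempty with rfl | ⟨v0, hv0⟩
  · simp
  have hℓ : ℓ.Prime := by
    rw [← hs v0 hv0]
    exact (har_pow v0).1
  have h1 : ∏ v ∈ s, v.asIdeal ∣ Ideal.span {((ℓ : ℕ) : 𝓞 F)} := by
    have h2 : ∏ I ∈ s.image (fun v => v.asIdeal), I ∣ Ideal.span {((ℓ : ℕ) : 𝓞 F)} := by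
      apply Finset.prod_primes_dvd
      · intro I hI
        obtain ⟨v, -, rfl⟩ := Finset.mem_image.1 hI
        exact v.prime
      · intro I hI
        obtain ⟨v, hv, rfl⟩ := Finset.mem_image.1 hI
        rw [Ideal.dvd_span_singleton, ← hs v hv]
        exact har_mem v
    rwa [Finset.prod_image] at h2
    intro v _ v' _ h
    exact IsDedekindDomain.HeightOneSpectrum.ext h
  have h3 : Ideal.absNorm (∏ v ∈ s, v.asIdeal) ∣ ℓ ^ Module.finrank ℤ (𝓞 F) := by
    rw [← Ideal.absNorm_span_natCast]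
    exact map_dvd Ideal.absNorm h1
  rw [map_prod, RingOfIntegers.rank] at h3
  have h4 : ℓ ^ s.card ≤ ∏ v ∈ s, Ideal.absNorm v.asIdeal := by
    rw [← Finset.prod_const]
    apply Finset.prod_le_prod'
    intro v hv
    rw [← hs v hv]
    exact Nat.minFac_le (har_pos v)
  have h5 := h4.trans (Nat.le_of_dvd (pow_pos hℓ.pos _) h3)
  exact (Nat.pow_le_pow_iff_right hℓ.one_lt).1 h5

private theorem har_index (n : ℕ) (hn : 0 < n) (h : Module.finrank ℚ F = n) :
    ∃ i : Pl F → Fin n, ∀ v w, (nm v).minFac = (nm w).minFac → i v = i w → v = w := by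
  classical
  have h1 : ∀ ℓ : ℕ, ∃ g : Pl F → Fin n, Set.InjOn g {v | (nm v).minFac = ℓ} := by
    intro ℓ
    have hfin : {v : Pl F | (nm v).minFac = ℓ}.Finite := by
      by_contra hinf
      obtain ⟨t, ht, hc⟩ := (show {v : Pl F | (nm v).minFac = ℓ}.Infinite from
        hinf).exists_subset_card_eq (n + 1)
      have := har_fibre ℓ t (fun v hv => ht hv)
      omega
    have hc : hfin.toFinset.card ≤ n := by
      rw [← h]
      exact har_fibre ℓ _ (fun v hv => (Set.Finite.mem_toFinset hfin).1 hv)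
    obtain ⟨e⟩ : Nonempty (hfin.toFinset ↪ Fin n) := by
      apply Function.Embedding.nonempty_of_card_le
      rw [Fintype.card_coe, Fintype.card_fin]
      exact hc
    refine ⟨fun v => if hv : v ∈ hfin.toFinset then e ⟨v, hv⟩ else ⟨0, hn⟩, ?_⟩
    intro v hv w hw hvw
    have hv' : v ∈ hfin.toFinset := (Set.Finite.mem_toFinset hfin).2 hv
    have hw' : w ∈ hfin.toFinset := (Set.Finite.mem_toFinset hfin).2 hw
    simp only [dif_pos hv', dif_pos hw'] at hvw
    exact congrArg Subtype.val (e.injective hvw)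
  choose g hg using h1
  refine ⟨fun v => g (nm v).minFac v, fun v w hvw hi => ?_⟩
  have hi' : g (nm v).minFac v = g (nm w).minFac w := hi
  rw [← hvw] at hi'
  exact hg _ rfl hvw.symm hi'

open Classical in
/-- the part of the norm of `I` at the primes in `P` of index `j` -/
private def har_phi {n : ℕ} (i : Pl F → Fin n) (P : Finset (Pl F)) (I : Ideal (𝓞 F)) (j : Fin n) :
    ℕ := ∏ v ∈ P.filter (fun v => i v = j), nm v ^ rcm v I

private theorem har_fac (P : Finset (Pl F)) {I : Ideal (𝓞 F)} (hI : I ≠ ⊥)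
    (hP : ∀ v, rcm v I ≠ 0 → v ∈ P) : ∏ v ∈ P, v.asIdeal ^ rcm v I = I := by
  classical
  have h := Ideal.finprod_heightOneSpectrum_factorization (I := I) hI
  have h2 : ∀ v : Pl F, v.maxPowDividing I = v.asIdeal ^ rcm v I := fun v => rfl
  simp only [h2] at h
  rw [finprod_eq_prod_of_mulSupport_subset (s := P)] at h
  · exact h
  · intro v hv
    refine hP v fun h0 => hv ?_
    show v.asIdeal ^ rcm v I = 1
    rw [h0, pow_zero]

private theorem har_prod {n : ℕ} (i : Pl F → Fin n) (P : Finset (Pl F)) {I : Ideal (𝓞 F)}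
    (hI : I ≠ ⊥) (hP : ∀ v, rcm v I ≠ 0 → v ∈ P) : ∏ j, har_phi i P I j = Ideal.absNorm I := by
  classical
  unfold har_phi
  have h := congrArg Ideal.absNorm (har_fac P hI hP)
  rw [map_prod] at h
  rw [← h]
  rw [← Finset.prod_fiberwise P i]
  refine Finset.prod_congr rfl fun j _ => Finset.prod_congr ?_ fun v _ => ?_
  · ext v
    simp
  · rw [map_pow]
    rfl

private theorem har_pos' {n : ℕ} (i : Pl F → Fin n) (P : Finset (Pl F)) (I : Ideal (𝓞 F))
    (j : Fin n) : 0 < har_phi i P I j :=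
  Finset.prod_pos fun v _ => pow_pos (har_pos v) _

private theorem har_val {n : ℕ} (i : Pl F → Fin n) (hi : ∀ v w, (nm v).minFac = (nm w).minFac →
    i v = i w → v = w) (P : Finset (Pl F)) (I : Ideal (𝓞 F)) (v : Pl F) (hv : v ∈ P) :
    (har_phi i P I (i v)).factorization (nm v).minFac =
      rcm v I * (nm v).factorization (nm v).minFac := by
  classical
  unfold har_phi
  rw [Nat.factorization_prod (fun w _ => (pow_pos (har_pos w) _).ne'), Finsupp.finset_sum_apply,
    Finset.sum_eq_single v]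
  · rw [Nat.factorization_pow]
    rfl
  · intro w hw hne
    have hw' := (Finset.mem_filter.1 hw).2
    rw [Nat.factorization_pow]
    have h0 : (nm w).factorization (nm v).minFac = 0 := by
      obtain ⟨h1, f, -, hf⟩ := har_pow w
      rw [hf, Nat.factorization_pow, h1.factorization]
      have h2 : (nm w).minFac ≠ (nm v).minFac := fun h => hne (hi w v h hw')
      simp [h2]
    show rcm w I * (nm w).factorization (nm v).minFac = 0
    rw [h0, mul_zero]
  · intro h
    exact (h (Finset.mem_filter.2 ⟨hv, rfl⟩)).elim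

private theorem har_inj {n : ℕ} (i : Pl F → Fin n) (hi : ∀ v w, (nm v).minFac = (nm w).minFac →
    i v = i w → v = w) (P : Finset (Pl F)) {I J : Ideal (𝓞 F)} (hI : I ≠ ⊥) (hJ : J ≠ ⊥)
    (hPI : ∀ v, rcm v I ≠ 0 → v ∈ P) (hPJ : ∀ v, rcm v J ≠ 0 → v ∈ P)
    (h : har_phi i P I = har_phi i P J) : I = J := by
  rw [← har_fac P hI hPI, ← har_fac P hJ hPJ]
  refine Finset.prod_congr rfl fun v hv => ?_
  have h1 := har_val i hi P I v hv
  have h2 := har_val i hi P J v hv
  rw [h, h2] at h1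
  obtain ⟨h3, f, hf1, hf⟩ := har_pow v
  have h4 : (nm v).factorization (nm v).minFac ≠ 0 := by
    have h5 : ((nm v).minFac ^ f).factorization (nm v).minFac = f := by
      rw [h3.factorization_pow]
      simp
    rw [← hf] at h5
    omega
  rw [mul_right_cancel₀ h4 h1]

theorem har (n : ℕ) (hn : 0 < n) : ∃ C : ℝ, 1 ≤ C ∧ ∀ (F : Type) [Field F] [NumberField F], Module.finrank ℚ F = n →
    ∀ Z : ℝ, 2 ≤ Z → ∑ 𝔫 ∈ IN F Z, (1 : ℝ) / Ideal.absNorm 𝔫 ≤ C * Real.log Z ^ n := by
  classical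
  have hl2 : 0 < Real.log 2 := Real.log_pos (by norm_num)
  have hC1 : 1 ≤ 1 + 1 / Real.log 2 := by
    have : 0 ≤ 1 / Real.log 2 := by positivity
    linarith
  refine ⟨(1 + 1 / Real.log 2) ^ n, one_le_pow₀ hC1, ?_⟩
  intro F _ _ hF Z hZ
  have hZ0 : 0 ≤ Z := by linarith
  obtain ⟨i, hi⟩ := har_index (F := F) n hn hF
  let P : Finset (Pl F) := (IN F Z).biUnion fun I =>
    if h : I ≠ ⊥ then (rcm_finite h).toFinset else ∅
  have hT : ∀ I ∈ IN F Z, I ≠ ⊥ ∧ (∀ v, rcm v I ≠ 0 → v ∈ P) ∧ Ideal.absNorm I ≤ ⌊Z⌋₊ := by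
    intro I hI
    have h1 := (mem_IN hZ0).1 hI
    refine ⟨h1.2, fun v hv => ?_, Nat.le_floor h1.1⟩
    refine Finset.mem_biUnion.2 ⟨I, hI, ?_⟩
    rw [dif_pos h1.2]
    exact (Set.Finite.mem_toFinset _).2 hv
  have hinj : Set.InjOn (har_phi i P) (IN F Z : Set (Ideal (𝓞 F))) := by
    intro I hI J hJ h
    have h1 := hT I hI
    have h2 := hT J hJ
    exact har_inj i hi P h1.1 h2.1 h1.2.1 h2.2.1 h
  have hsub : (IN F Z).image (har_phi i P) ⊆
      Fintype.piFinset (fun _ : Fin n => Finset.Icc 1 ⌊Z⌋₊) := by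
    intro m hm
    obtain ⟨I, hI, rfl⟩ := Finset.mem_image.1 hm
    have h1 := hT I hI
    rw [Fintype.mem_piFinset]
    intro j
    rw [Finset.mem_Icc]
    refine ⟨har_pos' i P I j, le_trans ?_ h1.2.2⟩
    have h2 := har_prod i P h1.1 h1.2.1
    have h3 : har_phi i P I j ∣ ∏ j, har_phi i P I j := Finset.dvd_prod_of_mem _ (Finset.mem_univ j)
    rw [h2] at h3
    have h4 : 0 < Ideal.absNorm I := Nat.pos_of_ne_zero fun h0 =>
      h1.1 (Ideal.absNorm_eq_zero_iff.1 h0)
    exact Nat.le_of_dvd h4 h3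
  have h1 : ∀ I ∈ IN F Z, (1 : ℝ) / Ideal.absNorm I =
      (fun m : Fin n → ℕ => ∏ j, (1 : ℝ) / m j) (har_phi i P I) := by
    intro I hI
    have h1 := hT I hI
    have h2 := har_prod i P h1.1 h1.2.1
    rw [← h2]
    push_cast
    rw [Finset.prod_div_distrib, Finset.prod_const_one]
  rw [Finset.sum_congr rfl h1, ← Finset.sum_image
    (f := fun m : Fin n → ℕ => ∏ j, (1 : ℝ) / m j) hinj]
  refine (Finset.sum_le_sum_of_subset_of_nonneg hsub fun m _ _ =>
    Finset.prod_nonneg fun j _ => by positivity).trans ?_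
  rw [← Finset.prod_univ_sum (fun _ : Fin n => Finset.Icc 1 ⌊Z⌋₊) (fun _ m => (1 : ℝ) / (m : ℕ)),
    Finset.prod_const, Finset.card_univ, Fintype.card_fin, ← mul_pow]
  have h2 : ∑ m ∈ Finset.Icc 1 ⌊Z⌋₊, (1 : ℝ) / (m : ℕ) ≤ 1 + Real.log Z := by
    have h3 := harmonic_floor_le_one_add_log Z (by linarith)
    rw [harmonic_eq_sum_Icc] at h3
    push_cast at h3
    simpa [one_div] using h3
  have hlZ : Real.log 2 ≤ Real.log Z := Real.log_le_log (by norm_num) hZ
  refine pow_le_pow_left₀ (Finset.sum_nonneg fun m _ => by positivity) (h2.trans ?_) n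
  have h4 : 1 ≤ 1 / Real.log 2 * Real.log Z := by
    rw [div_mul_eq_mul_div, one_mul, le_div_iff₀ hl2, one_mul]
    exact hlZ
  nlinarith

end H57.TLS
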