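import Pool.Agent.H57.TLS.Def

/-!
[H57 TLS MNK]  Minkowski: an ideal contains a small element (40-70 lines, Mathlib).

`NumberField.mixedEmbedding.exists_ne_zero_mem_ideal_lt` (or `exists_ne_zero_mem_ideal_of_norm_le` and its relatives in
Mathlib/NumberTheory/NumberField/CanonicalEmbedding/ConvexBody.lean) with the constant function `f = R`:
`minkowskiBound F I = volume (fundamentalDomain) * 2 ^ finrank` , `volume_fundamentalDomain_fractionalIdealLatticeBasis`,
`convexBodyLT_volume = convexBodyLTFactor * ∏ w, f w ^ mult w = convexBodyLTFactor * R ^ n`, `convexBodyLTFactor ≥ 1`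
(`one_le_convexBodyLTFactor`). So the hypothesis `C √dd N𝔪 ≤ R ^ n` with `C = 2 ^ (n + 1)` is more than enough (the covolume is at most
`N𝔪 √dd`, and the inequality needed is strict). `∑ mult = n` (`InfinitePlace.sum_mult_eq`).
-/

set_option autoImplicit false

open scoped NumberField
open NumberField H63.MA H36.QA

noncomputable section

namespace H57.TLS

theorem mink (n : ℕ) (hn : 0 < n) : ∃ C : ℝ, 1 ≤ C ∧ ∀ (F : Type) [Field F] [NumberField F], TC F n →
    ∀ 𝔪 : Ideal (𝓞 F), 𝔪 ≠ ⊥ → ∀ R : ℝ, 0 < R → C * (Real.sqrt (dd F) * Ideal.absNorm 𝔪) ≤ R ^ n →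
      ∃ α ∈ 𝔪, α ≠ 0 ∧ Bx R α := by
  classical
  refine ⟨2 ^ (n + 1), one_le_pow₀ (by norm_num), ?_⟩
  intro F _ _ hTC 𝔪 h𝔪 R hR hle
  have h0 : (𝔪 : FractionalIdeal (nonZeroDivisors (𝓞 F)) F) ≠ 0 :=
    FractionalIdeal.coeIdeal_ne_zero.mpr h𝔪
  let I : (FractionalIdeal (nonZeroDivisors (𝓞 F)) F)ˣ := Units.mk0 _ h0
  let f : InfinitePlace F → NNReal := fun _ => ⟨R, hR.le⟩
  have hN : FractionalIdeal.absNorm I.1 = Ideal.absNorm 𝔪 := by
    show FractionalIdeal.absNorm (𝔪 : FractionalIdeal (nonZeroDivisors (𝓞 F)) F) = _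
    exact FractionalIdeal.coeIdeal_absNorm 𝔪
  have hNpos : (0 : ℝ) < Ideal.absNorm 𝔪 := by
    have : Ideal.absNorm 𝔪 ≠ 0 := by
      rw [Ne, Ideal.absNorm_eq_zero_iff]; exact h𝔪
    exact_mod_cast Nat.pos_of_ne_zero this
  have hdd : (0 : ℝ) < Real.sqrt (dd F) := Real.sqrt_pos.mpr (dd_pos F)
  have hA : mixedEmbedding.minkowskiBound F I ≤
      ENNReal.ofReal ((Ideal.absNorm 𝔪 : ℝ) * Real.sqrt (dd F) * 2 ^ n) := by
    rw [mixedEmbedding.minkowskiBound,
      mixedEmbedding.volume_fundamentalDomain_fractionalIdealLatticeBasis,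
      mixedEmbedding.volume_fundamentalDomain_latticeBasis, mixedEmbedding.finrank, hTC.2, hN]
    rw [ENNReal.ofReal_mul (by positivity), ENNReal.ofReal_mul (by positivity)]
    refine mul_le_mul' (mul_le_mul' (le_of_eq ?_) ?_) (le_of_eq ?_)
    · rw [Rat.cast_natCast]
    · have h1 : ((2 : ENNReal)⁻¹) ^ InfinitePlace.nrComplexPlaces F ≤ 1 := by
        apply pow_le_one'
        rw [ENNReal.inv_le_one]
        exact one_le_two
      have h2 : ((NNReal.sqrt ‖discr F‖₊ : NNReal) : ENNReal) = ENNReal.ofReal (Real.sqrt (dd F)) := by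
        rw [ENNReal.ofReal]
        congr 1
        apply NNReal.eq
        rw [Real.coe_sqrt, coe_nnnorm, Int.norm_eq_abs, Real.coe_toNNReal _ (Real.sqrt_nonneg _)]
        rfl
      rw [h2]
      calc ((2 : ENNReal)⁻¹) ^ InfinitePlace.nrComplexPlaces F * ENNReal.ofReal (Real.sqrt (dd F))
          ≤ 1 * ENNReal.ofReal (Real.sqrt (dd F)) := mul_le_mul' h1 le_rfl
        _ = _ := one_mul _
    · rw [ENNReal.ofReal_pow (by norm_num)]; norm_num
  have hB : ENNReal.ofReal (R ^ n) ≤ MeasureTheory.volume (mixedEmbedding.convexBodyLT F f) := by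
    rw [mixedEmbedding.convexBodyLT_volume]
    have h1 : (∏ w : InfinitePlace F, (f w) ^ (InfinitePlace.mult w)) = (f (Classical.arbitrary _)) ^ n := by
      have : ∀ w ∈ (Finset.univ : Finset (InfinitePlace F)), (f w) ^ (InfinitePlace.mult w) =
          (f (Classical.arbitrary _)) ^ (InfinitePlace.mult w) := fun w _ => rfl
      rw [Finset.prod_congr rfl this, Finset.prod_pow_eq_pow_sum, InfinitePlace.sum_mult_eq, hTC.2]
    have h2 : ((f (Classical.arbitrary _) : NNReal) : ENNReal) = ENNReal.ofReal R := by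
      rw [ENNReal.ofReal]
      congr 1
      apply NNReal.eq
      rw [Real.coe_toNNReal _ hR.le]
      rfl
    have h3 : (∏ w : InfinitePlace F, ((f w : NNReal) : ENNReal) ^ (InfinitePlace.mult w)) =
        ENNReal.ofReal (R ^ n) := by
      rw [ENNReal.ofReal_pow hR.le, ← h2, ← ENNReal.coe_pow, ← h1]
      push_cast
      rfl
    have h4 : (1 : ENNReal) ≤ ((mixedEmbedding.convexBodyLTFactor F : NNReal) : ENNReal) := by
      exact_mod_cast mixedEmbedding.one_le_convexBodyLTFactor F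
    calc ENNReal.ofReal (R ^ n) = 1 * ENNReal.ofReal (R ^ n) := (one_mul _).symm
      _ ≤ ((mixedEmbedding.convexBodyLTFactor F : NNReal) : ENNReal) * ENNReal.ofReal (R ^ n) :=
        mul_le_mul' h4 le_rfl
      _ = _ := by rw [← h3]; push_cast; rfl
  have hlt : mixedEmbedding.minkowskiBound F I <
      MeasureTheory.volume (mixedEmbedding.convexBodyLT F f) := by
    refine lt_of_le_of_lt hA (lt_of_lt_of_le ?_ hB)
    rw [ENNReal.ofReal_lt_ofReal_iff (by positivity)]
    refine lt_of_lt_of_le ?_ hle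
    rw [pow_succ]
    have : 0 < 2 ^ n * (Real.sqrt (dd F) * (Ideal.absNorm 𝔪 : ℝ)) := by positivity
    linarith
  obtain ⟨a, ha, ha0, hab⟩ := mixedEmbedding.exists_ne_zero_mem_ideal_lt F I hlt
  have ha' : a ∈ (𝔪 : FractionalIdeal (nonZeroDivisors (𝓞 F)) F) := ha
  rw [FractionalIdeal.mem_coeIdeal] at ha'
  obtain ⟨α, hα, rfl⟩ := ha'
  refine ⟨α, hα, ?_, fun w => ?_⟩
  · rintro rfl
    exact ha0 (map_zero _)
  · exact (hab w).le

end H57.TLS
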