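import Pool.Agent.H57.TLS.Chs
import Pool.Agent.H57.TLS.Mnk
import Pool.Agent.H57.TLS.Har

/-!
[H57 TLS UNI]  The weighted sum over all ideals (120-180 lines).

`qt 𝔫 α` is the ideal `𝔪` with `(α) = 𝔪 𝔫` (`⊥` if there is none; for `α ∈ 𝔫` it exists: `idPer_exists`).
Constants: `C₁` from `mink`; `C₂, A₂` from `box_count`; `C₃, A₃` from `chs_one`; `C₄` from `har`. For `X ≥ 1` let `Z0 F = 2 C₁ √dd`
and `R ≥ 0` with `R ^ n = 2 C₁ √dd X` (`R = (2 C₁ √dd X)^(1/n)`).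
`major`: for `𝔪 ∈ M`: `mink` gives `α ∈ 𝔪`, `α ≠ 0`, `Bx R α` (`C₁ √dd N𝔪 ≤ 2 C₁ √dd X`); `(α) = 𝔪 𝔫` with `𝔫 ≠ ⊥`,
`N𝔪 N𝔫 = |N α| ≤ R ^ n` (`prod_sq_eq_norm` in H36/QA/Latt: `∏ w(α)^2 = N(α)`, `card (InfinitePlace F) = n / 2`), so
`N𝔫 ≤ 2 C₁ √dd X / X = Z0`; `𝔫 ∈ IN F Z0`, `α ∈ bxs 𝔫 R`, `qt 𝔫 α = 𝔪`. The map `𝔪 ↦ (𝔫, α)` is injective; `g ≥ 0`.
`diag`: `#(bxs 𝔫 R) ≤ #{α ∈ 𝔫, Bx R α} ≤ (kpn n + C₂) R^n / (N𝔫 √dd)` by `box_count` with `𝔞 = 𝔫`, `v = 0`, `ρ = R`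
(`C₂ dd^A₂ N𝔫 ≤ C₂ dd^A₂ Z0 ≤ R^n = 2 C₁ √dd X` if `X ≥ C dd^A`). Sum over `𝔫 ∈ IN F Z0`: `C X ∑ 1/N𝔫 ≤ C X (log Z0)^n ≤ C X (log X)^n` (`har`; `2 ≤ Z0 ≤ X`).
`off`: `chs_one` for every `𝔫 ∈ IN F Z0` with the same `ρ = (C₃ dd^A₃ Z0 N)^(1/n)`, `N ≥ N𝔣`; `ρ ≤ R` if `X ≥ C (dd N)^A`; sum:
`C₃ R^(n-1) ρ / √dd * ∑ 1/N𝔫`, `∑ 1 / N𝔫 ≤ C₄ (log Z0)^n ≤ C dd^n`; `R^(n-1) = (2 C₁ √dd X)^(1 - 1/n)`: total `≤ C X^(1-1/n) (dd N)^A`.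
-/

set_option autoImplicit false

open scoped NumberField
open NumberField H63.MA H36.QA

noncomputable section

namespace H57.TLS

open Classical in
/-- the ideal `𝔪` with `(α) = 𝔪 𝔫` -/
def qt {F : Type} [Field F] [NumberField F] (𝔫 : Ideal (𝓞 F)) (α : 𝓞 F) : Ideal (𝓞 F) :=
  if h : ∃ 𝔪, Ideal.span {α} = 𝔪 * 𝔫 then h.choose else ⊥

theorem qt_spec {F : Type} [Field F] [NumberField F] {𝔫 : Ideal (𝓞 F)} (h𝔫 : 𝔫 ≠ ⊥) {α : 𝓞 F} {𝔪 : Ideal (𝓞 F)}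
    (h : Ideal.span {α} = 𝔪 * 𝔫) : qt 𝔫 α = 𝔪 := by
  have hs0 : 𝔫 ≠ 0 := by rwa [Ideal.zero_eq_bot]
  have h' : ∃ 𝔪, Ideal.span {α} = 𝔪 * 𝔫 := ⟨𝔪, h⟩
  unfold qt
  rw [dif_pos h']
  exact (mul_right_cancel₀ hs0 (h.symm.trans h'.choose_spec)).symm

theorem fj_qt {F : Type} [Field F] [NumberField F] {𝔣 : Ideal (𝓞 F)} (χ : RC F 𝔣) {𝔫 : Ideal (𝓞 F)} (h𝔫 : 𝔫 ≠ ⊥) {α : 𝓞 F}
    (hα : α ∈ 𝔫) : fj χ 𝔫 α = χ.χ (qt 𝔫 α) := by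
  obtain ⟨m, hm⟩ := idPer_exists hα
  rw [fj_spec χ h𝔫 hm, qt_spec h𝔫 hm]

/-- the norm of an element of the box -/
theorem uni_norm {n : ℕ} {F : Type} [Field F] [NumberField F] (hF : TC F n) {R : ℝ}
    {α : 𝓞 F} (h : Bx R α) : (Ideal.absNorm (Ideal.span {α}) : ℝ) ≤ R ^ n := by
  rw [← prod_sq_eq_norm n F hF α]
  have h1 : ∏ w : InfinitePlace F, (w (α : F)) ^ 2 ≤ ∏ _w : InfinitePlace F, R ^ 2 := by
    refine Finset.prod_le_prod (fun w _ => sq_nonneg _) fun w _ => ?_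
    exact pow_le_pow_left₀ (apply_nonneg w _) (h w) 2
  refine h1.trans (le_of_eq ?_)
  rw [Finset.prod_const, ← pow_mul, Finset.card_univ]
  congr 1
  have := hF.1
  have h2 := IsTotallyComplex.finrank F
  have h3 := InfinitePlace.card_eq_nrRealPlaces_add_nrComplexPlaces F
  have h4 : InfinitePlace.nrRealPlaces F = 0 := IsTotallyComplex.nrRealPlaces_eq_zero F
  rw [hF.2] at h2
  omega

/-- the majorant -/
theorem uni_major {n : ℕ} {C₁ : ℝ} (hC₁ : 1 ≤ C₁) {F : Type} [Field F] [NumberField F] (hF : TC F n)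
    (hm : ∀ 𝔪 : Ideal (𝓞 F), 𝔪 ≠ ⊥ → ∀ R : ℝ, 0 < R → C₁ * (Real.sqrt (dd F) * Ideal.absNorm 𝔪) ≤ R ^ n →
      ∃ α ∈ 𝔪, α ≠ 0 ∧ Bx R α) {X R : ℝ} (hX : 0 < X) (hR : 0 < R)
    (hRn : R ^ n = 2 * C₁ * Real.sqrt (dd F) * X)
    (g : Ideal (𝓞 F) → ℝ) (hg : ∀ I, 0 ≤ g I) (M : Finset (Ideal (𝓞 F)))
    (hM : ∀ 𝔪 ∈ M, X < Ideal.absNorm 𝔪 ∧ (Ideal.absNorm 𝔪 : ℝ) ≤ 2 * X) :
    ∑ 𝔪 ∈ M, g 𝔪 ≤ ∑ 𝔫 ∈ IN F (2 * C₁ * Real.sqrt (dd F)), ∑ α ∈ bxs 𝔫 R, g (qt 𝔫 α) := by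
  classical
  have hs0 : 0 ≤ Real.sqrt (dd F) := Real.sqrt_nonneg _
  have hZ0 : 0 ≤ 2 * C₁ * Real.sqrt (dd F) := by positivity
  have key : ∀ 𝔪 : Ideal (𝓞 F), 𝔪 ∈ M → ∃ p : (_ : Ideal (𝓞 F)) × 𝓞 F,
      p ∈ (IN F (2 * C₁ * Real.sqrt (dd F))).sigma (fun 𝔫 => bxs 𝔫 R) ∧ qt p.1 p.2 = 𝔪 := by
    intro 𝔪 h𝔪
    obtain ⟨h1, h2⟩ := hM 𝔪 h𝔪
    have h𝔪0 : 𝔪 ≠ ⊥ := by
      rintro rfl
      rw [Ideal.absNorm_bot, Nat.cast_zero] at h1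
      linarith
    obtain ⟨α, hα, hα0, hB⟩ := hm 𝔪 h𝔪0 R hR (by
      rw [hRn]
      calc C₁ * (Real.sqrt (dd F) * Ideal.absNorm 𝔪) = C₁ * Real.sqrt (dd F) * Ideal.absNorm 𝔪 := by ring
        _ ≤ C₁ * Real.sqrt (dd F) * (2 * X) := mul_le_mul_of_nonneg_left h2 (by positivity)
        _ = 2 * C₁ * Real.sqrt (dd F) * X := by ring)
    obtain ⟨𝔫, h𝔫⟩ := idPer_exists hα
    have h𝔫' : Ideal.span {α} = 𝔪 * 𝔫 := by rw [h𝔫, mul_comm]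
    have h𝔫0 : 𝔫 ≠ ⊥ := by
      rintro rfl
      rw [Ideal.mul_bot, Ideal.span_singleton_eq_bot] at h𝔫'
      exact hα0 h𝔫'
    have h3 := uni_norm hF hB
    rw [h𝔫', map_mul, Nat.cast_mul, hRn] at h3
    have h4 : (Ideal.absNorm 𝔫 : ℝ) ≤ 2 * C₁ * Real.sqrt (dd F) := by
      have h5 : X * (Ideal.absNorm 𝔫 : ℝ) ≤ X * (2 * C₁ * Real.sqrt (dd F)) := by
        calc X * (Ideal.absNorm 𝔫 : ℝ) ≤ Ideal.absNorm 𝔪 * (Ideal.absNorm 𝔫 : ℝ) :=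
              mul_le_mul_of_nonneg_right h1.le (Nat.cast_nonneg _)
          _ ≤ 2 * C₁ * Real.sqrt (dd F) * X := h3
          _ = X * (2 * C₁ * Real.sqrt (dd F)) := by ring
      exact le_of_mul_le_mul_left h5 hX
    refine ⟨⟨𝔫, α⟩, ?_, qt_spec h𝔫0 h𝔫'⟩
    rw [Finset.mem_sigma]
    refine ⟨(mem_IN hZ0).2 ⟨h4, h𝔫0⟩, mem_bxs.2 ⟨?_, hα0, hB⟩⟩
    show α ∈ 𝔫
    rw [← Ideal.span_singleton_le_iff_mem, h𝔫']
    exact (Ideal.mul_le_right : 𝔪 * 𝔫 ≤ 𝔫)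
  choose! φ hφ1 hφ2 using key
  rw [Finset.sum_sigma']
  have hinj : Set.InjOn φ M := by
    intro a ha b hb hab
    rw [← hφ2 a ha, ← hφ2 b hb, hab]
  calc ∑ 𝔪 ∈ M, g 𝔪 = ∑ 𝔪 ∈ M, g (qt (φ 𝔪).1 (φ 𝔪).2) :=
        Finset.sum_congr rfl fun 𝔪 h𝔪 => by rw [hφ2 𝔪 h𝔪]
    _ = ∑ p ∈ M.image φ, g (qt p.1 p.2) := by
        rw [Finset.sum_image hinj]
    _ ≤ _ := by
        refine Finset.sum_le_sum_of_subset_of_nonneg ?_ fun p _ _ => hg _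
        intro p hp
        obtain ⟨𝔪, h𝔪, rfl⟩ := Finset.mem_image.1 hp
        exact hφ1 𝔪 h𝔪

/-- the number of elements of the box -/
theorem uni_card {n : ℕ} (hn : 0 < n) {C₂ : ℝ} {F : Type} [Field F] [NumberField F]
    {𝔫 : Ideal (𝓞 F)} {R : ℝ}
    (h : |(({α : 𝓞 F | α - 0 ∈ 𝔫 ∧ Bx R α}.ncard : ℕ) : ℝ) * (Ideal.absNorm 𝔫 * Real.sqrt (dd F)) -
      kpn n * R ^ n| ≤ C₂ * (R ^ (n - 1) * R)) :
    ((bxs 𝔫 R).card : ℝ) * (Ideal.absNorm 𝔫 * Real.sqrt (dd F)) ≤ (kpn n + C₂) * R ^ n := by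
  have h1 : ((bxs 𝔫 R).card : ℝ) ≤ (({α : 𝓞 F | α - 0 ∈ 𝔫 ∧ Bx R α}.ncard : ℕ) : ℝ) := by
    have h2 : (bxs 𝔫 R).card ≤ {α : 𝓞 F | α - 0 ∈ 𝔫 ∧ Bx R α}.ncard := by
      rw [← Set.ncard_coe_finset]
      refine Set.ncard_le_ncard ?_ ((finite_bx R).subset fun _ h => h.2)
      intro α hα
      rw [Finset.mem_coe, mem_bxs] at hα
      refine ⟨?_, hα.2.2⟩
      rw [sub_zero]
      exact hα.1
    exact_mod_cast h2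
  have h3 : R ^ (n - 1) * R = R ^ n := by
    rw [← pow_succ, Nat.sub_add_cancel hn]
  rw [h3] at h
  have h4 := (abs_le.1 h).2
  have h5 : ((bxs 𝔫 R).card : ℝ) * (Ideal.absNorm 𝔫 * Real.sqrt (dd F)) ≤
      (({α : 𝓞 F | α - 0 ∈ 𝔫 ∧ Bx R α}.ncard : ℕ) : ℝ) * (Ideal.absNorm 𝔫 * Real.sqrt (dd F)) :=
    mul_le_mul_of_nonneg_right h1 (by positivity)
  linarith

theorem uni_root {n : ℕ} (hn : 0 < n) {Y : ℝ} (hY : 1 ≤ Y) :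
    ∃ R : ℝ, 1 ≤ R ∧ R ^ n = Y ∧ R = Y ^ (1 / (n : ℝ)) := by
  refine ⟨Y ^ (1 / (n : ℝ)), ?_, ?_, rfl⟩
  · exact Real.one_le_rpow hY (by positivity)
  · rw [← Real.rpow_natCast, ← Real.rpow_mul (by linarith), one_div, inv_mul_cancel₀ (by positivity),
      Real.rpow_one]

theorem uni_root1 {n : ℕ} (hn : 0 < n) {Y : ℝ} (hY : 1 ≤ Y) :
    (Y ^ (1 / (n : ℝ))) ^ (n - 1) = Y ^ (1 - 1 / (n : ℝ)) := by
  have hn0 : (n : ℝ) ≠ 0 := by positivity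
  rw [← Real.rpow_natCast, ← Real.rpow_mul (by linarith)]
  congr 1
  rw [Nat.cast_sub hn, Nat.cast_one]
  field_simp

theorem uni (n : ℕ) (hn : 0 < n) : ∃ C : ℝ, 1 ≤ C ∧ ∃ A : ℕ, ∀ (F : Type) [Field F] [NumberField F], TC F n →
    ∀ X N : ℝ, 2 ≤ X → 1 ≤ N → C * (dd F * N) ^ A ≤ X → ∃ R Z0 : ℝ,
      (∀ g : Ideal (𝓞 F) → ℝ, (∀ I, 0 ≤ g I) → ∀ M : Finset (Ideal (𝓞 F)),
        (∀ 𝔪 ∈ M, X < Ideal.absNorm 𝔪 ∧ (Ideal.absNorm 𝔪 : ℝ) ≤ 2 * X) →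
        ∑ 𝔪 ∈ M, g 𝔪 ≤ ∑ 𝔫 ∈ IN F Z0, ∑ α ∈ bxs 𝔫 R, g (qt 𝔫 α)) ∧
      (∑ 𝔫 ∈ IN F Z0, ((bxs 𝔫 R).card : ℝ) ≤ C * (X * Real.log X ^ n)) ∧
      ∀ (𝔣 : Ideal (𝓞 F)), 𝔣 ≠ ⊥ → (Ideal.absNorm 𝔣 : ℝ) ≤ N → ∀ χ : RC F 𝔣, PN χ →
        ‖∑ 𝔫 ∈ IN F Z0, ∑ α ∈ bxs 𝔫 R, χ.χ (qt 𝔫 α)‖ ≤ C * (X ^ (1 - 1 / (n : ℝ)) * (dd F * N) ^ A) := by
  obtain ⟨C₁, hC₁, h1⟩ := mink n hn
  obtain ⟨C₂, hC₂, A₂, h2⟩ := box_count n hn
  obtain ⟨C₃, hC₃, A₃, h3⟩ := chs_one n hn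
  obtain ⟨C₄, hC₄, h4⟩ := har n hn
  have hk : 0 ≤ kpn n := by
    unfold kpn
    positivity
  obtain ⟨E₁, hE₁⟩ : ∃ E₁ : ℝ, E₁ = (kpn n + C₂) * (2 * C₁) * C₄ := ⟨_, rfl⟩
  obtain ⟨E₂, hE₂⟩ : ∃ E₂ : ℝ, E₂ = C₃ ^ 2 * C₄ * (2 * C₁) ^ (n + 2) := ⟨_, rfl⟩
  have hE₁0 : 0 ≤ E₁ := by rw [hE₁]; positivity
  have hE₂0 : 0 ≤ E₂ := by rw [hE₂]; positivity
  refine ⟨C₂ + C₃ + 2 * C₁ + E₁ + E₂, by linarith, A₂ + A₃ + n + 2, ?_⟩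
  intro F _ _ hF X N hX hN hCX
  have hd : 1 ≤ dd F := one_le_dd F
  obtain ⟨d, hdd⟩ : ∃ d : ℝ, d = dd F := ⟨_, rfl⟩
  obtain ⟨s, hs⟩ : ∃ s : ℝ, s = Real.sqrt (dd F) := ⟨_, rfl⟩
  have hs1 : 1 ≤ s := by
    rw [hs]
    exact Real.one_le_sqrt.2 hd
  have hs2 : s * s = d := by
    rw [hs, hdd]
    exact Real.mul_self_sqrt (by linarith)
  have hd1 : 1 ≤ d := by rw [hdd]; exact hd
  have hsd : s ≤ d := by nlinarith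
  rw [← hdd] at hCX
  obtain ⟨Q, hQ⟩ : ∃ Q : ℝ, Q = (d * N) ^ (A₂ + A₃ + n + 2) := ⟨_, rfl⟩
  have hdN : 1 ≤ d * N := by nlinarith
  have hddN : d ≤ d * N := le_mul_of_one_le_right (by linarith) hN
  have hQ1 : 1 ≤ Q := by
    rw [hQ]
    exact one_le_pow₀ hdN
  rw [← hQ] at hCX
  -- powers of `d`
  have hq1 : d ^ A₂ ≤ Q := by
    rw [hQ]
    calc d ^ A₂ ≤ (d * N) ^ A₂ := pow_le_pow_left₀ (by linarith) hddN _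
      _ ≤ _ := pow_le_pow_right₀ hdN (by omega)
  have hq2 : s ≤ Q := by
    rw [hQ]
    calc s ≤ (d * N) ^ 1 := by rw [pow_one]; linarith
      _ ≤ _ := pow_le_pow_right₀ hdN (by omega)
  have hq3 : d ^ A₃ * N ≤ Q := by
    rw [hQ]
    calc d ^ A₃ * N ≤ (d * N) ^ A₃ * (d * N) := by
          refine mul_le_mul (pow_le_pow_left₀ (by linarith) hddN _) ?_ (by linarith) (by positivity)
          exact le_mul_of_one_le_left (by linarith) hd1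
      _ = (d * N) ^ (A₃ + 1) := by rw [pow_succ]
      _ ≤ _ := pow_le_pow_right₀ hdN (by omega)
  have hq4 : s ^ (n + 2) * (d ^ A₃ * N) ≤ Q := by
    rw [hQ]
    calc s ^ (n + 2) * (d ^ A₃ * N) ≤ (d * N) ^ (n + 1) * ((d * N) ^ A₃ * (d * N)) := by
          refine mul_le_mul ?_ ?_ (by positivity) (by positivity)
          · calc s ^ (n + 2) = s * s * s ^ n := by ring
              _ ≤ (d * N) * (d * N) ^ n := by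
                  rw [hs2]
                  exact mul_le_mul hddN (pow_le_pow_left₀ (by linarith) (by linarith) _)
                    (by positivity) (by positivity)
              _ = (d * N) ^ (n + 1) := by ring
          · refine mul_le_mul (pow_le_pow_left₀ (by linarith) hddN _) ?_ (by linarith) (by positivity)
            exact le_mul_of_one_le_left (by linarith) hd1
      _ = (d * N) ^ (A₃ + n + 2) := by ring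
      _ ≤ _ := pow_le_pow_right₀ hdN (by omega)
  have hX1 : C₂ * Q ≤ X := by nlinarith
  have hX2 : C₃ * Q ≤ X := by nlinarith
  have hX3 : 2 * C₁ * Q ≤ X := by nlinarith
  -- the radius
  have hY : 1 ≤ 2 * C₁ * s * X := by
    have : 1 ≤ C₁ * s := by nlinarith
    nlinarith
  obtain ⟨R, hR1, hRn, hRe⟩ := uni_root hn hY
  have hR0 : 0 < R := by linarith
  have hZs : 2 * C₁ * s ≤ X := (mul_le_mul_of_nonneg_left hq2 (by positivity)).trans hX3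
  have hZ2 : 2 ≤ 2 * C₁ * s := by nlinarith
  have hlog : 0 ≤ Real.log (2 * C₁ * s) := Real.log_nonneg (by linarith)
  have hsum := h4 F hF.2 (2 * C₁ * s) hZ2
  refine ⟨R, 2 * C₁ * s, ?_, ?_, ?_⟩
  · intro g hg M hM
    rw [hs]
    exact uni_major hC₁ hF (h1 F hF) (by linarith) hR0 (by rw [hRn, hs]) g hg M hM
  · have hone : ∀ 𝔫 ∈ IN F (2 * C₁ * s), ((bxs 𝔫 R).card : ℝ) ≤
        (kpn n + C₂) * (2 * C₁) * X * (1 / Ideal.absNorm 𝔫) := by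
      intro 𝔫 h𝔫
      obtain ⟨hn1, hn0⟩ := (mem_IN (by linarith)).1 h𝔫
      have hN𝔫 : 0 < (Ideal.absNorm 𝔫 : ℝ) := by
        have : Ideal.absNorm 𝔫 ≠ 0 := by rwa [Ne, Ideal.absNorm_eq_zero_iff]
        exact_mod_cast Nat.pos_of_ne_zero this
      have h5 := uni_card hn (h2 F hF 𝔫 hn0 R R hR0 le_rfl (by
        rw [hRn, ← hdd]
        calc C₂ * d ^ A₂ * Ideal.absNorm 𝔫 ≤ X * (2 * C₁ * s) := by
              refine mul_le_mul ?_ hn1 hN𝔫.le (by linarith)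
              exact (mul_le_mul_of_nonneg_left hq1 (by linarith)).trans hX1
          _ = 2 * C₁ * s * X := by ring) 0)
      rw [hRn, ← hs] at h5
      rw [mul_one_div, le_div_iff₀ hN𝔫]
      have hs0 : 0 < s := by linarith
      refine le_of_mul_le_mul_right ?_ hs0
      calc ((bxs 𝔫 R).card : ℝ) * Ideal.absNorm 𝔫 * s = ((bxs 𝔫 R).card : ℝ) * (Ideal.absNorm 𝔫 * s) := by ring
        _ ≤ (kpn n + C₂) * (2 * C₁ * s * X) := h5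
        _ = (kpn n + C₂) * (2 * C₁) * X * s := by ring
    have hX0 : 0 ≤ X := by linarith
    have hlogX : Real.log (2 * C₁ * s) ≤ Real.log X := Real.log_le_log (by linarith) hZs
    calc ∑ 𝔫 ∈ IN F (2 * C₁ * s), ((bxs 𝔫 R).card : ℝ)
        ≤ ∑ 𝔫 ∈ IN F (2 * C₁ * s), (kpn n + C₂) * (2 * C₁) * X * (1 / Ideal.absNorm 𝔫) :=
          Finset.sum_le_sum hone
      _ = (kpn n + C₂) * (2 * C₁) * X * ∑ 𝔫 ∈ IN F (2 * C₁ * s), (1 : ℝ) / Ideal.absNorm 𝔫 := by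
          rw [Finset.mul_sum]
      _ ≤ (kpn n + C₂) * (2 * C₁) * X * (C₄ * Real.log (2 * C₁ * s) ^ n) :=
          mul_le_mul_of_nonneg_left hsum (by positivity)
      _ ≤ (kpn n + C₂) * (2 * C₁) * X * (C₄ * Real.log X ^ n) := by
          refine mul_le_mul_of_nonneg_left ?_ (by positivity)
          exact mul_le_mul_of_nonneg_left (pow_le_pow_left₀ hlog hlogX n) (by linarith)
      _ = E₁ * (X * Real.log X ^ n) := by rw [hE₁]; ring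
      _ ≤ (C₂ + C₃ + 2 * C₁ + E₁ + E₂) * (X * Real.log X ^ n) := by
          have h6 : 0 ≤ X * Real.log X ^ n := mul_nonneg hX0 (pow_nonneg (hlog.trans hlogX) n)
          exact mul_le_mul_of_nonneg_right (by linarith) h6
  · intro 𝔣 h𝔣 hN𝔣 χ hχ
    have hW : 1 ≤ C₃ * d ^ A₃ * (2 * C₁ * s) * N := by
      have a1 : 1 ≤ d ^ A₃ := one_le_pow₀ hd1
      have a2 : 1 ≤ C₃ * d ^ A₃ := by nlinarith
      have a3 : 1 ≤ C₃ * d ^ A₃ * (2 * C₁ * s) := by nlinarith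
      nlinarith
    obtain ⟨ρ, hρ1, hρn, hρe⟩ := uni_root hn hW
    have hρ0 : 0 < ρ := by linarith
    have hρR : ρ ≤ R := by
      refine le_of_pow_le_pow_left₀ (n := n) (by omega) hR0.le ?_
      rw [hρn, hRn]
      have a1 : C₃ * (d ^ A₃ * N) ≤ X := (mul_le_mul_of_nonneg_left hq3 (by linarith)).trans hX2
      calc C₃ * d ^ A₃ * (2 * C₁ * s) * N = (2 * C₁ * s) * (C₃ * (d ^ A₃ * N)) := by ring
        _ ≤ (2 * C₁ * s) * X := mul_le_mul_of_nonneg_left a1 (by linarith)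
    have hρW : ρ ≤ C₃ * d ^ A₃ * (2 * C₁ * s) * N := by
      rw [← hρn]
      calc ρ = ρ ^ 1 := (pow_one ρ).symm
        _ ≤ ρ ^ n := pow_le_pow_right₀ hρ1 hn
    have hone : ∀ 𝔫 ∈ IN F (2 * C₁ * s), ‖∑ α ∈ bxs 𝔫 R, χ.χ (qt 𝔫 α)‖ ≤
        C₃ * (R ^ (n - 1) * ρ) * (1 / Ideal.absNorm 𝔫) := by
      intro 𝔫 h𝔫
      obtain ⟨hn1, hn0⟩ := (mem_IN (by linarith)).1 h𝔫
      have hN𝔫 : 0 < (Ideal.absNorm 𝔫 : ℝ) := by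
        have : Ideal.absNorm 𝔫 ≠ 0 := by rwa [Ne, Ideal.absNorm_eq_zero_iff]
        exact_mod_cast Nat.pos_of_ne_zero this
      have h5 := h3 F hF 𝔣 h𝔣 χ hχ 𝔫 hn0 R ρ hρ0 hρR (by
        rw [hρn, ← hdd]
        calc C₃ * d ^ A₃ * (Ideal.absNorm 𝔫 * Ideal.absNorm 𝔣) ≤ C₃ * d ^ A₃ * ((2 * C₁ * s) * N) := by
              refine mul_le_mul_of_nonneg_left ?_ (by positivity)
              exact mul_le_mul hn1 hN𝔣 (Nat.cast_nonneg _) (by linarith)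
          _ = C₃ * d ^ A₃ * (2 * C₁ * s) * N := by ring)
      have h6 : ∑ α ∈ bxs 𝔫 R, χ.χ (qt 𝔫 α) = ∑ α ∈ bxs 𝔫 R, fj χ 𝔫 α :=
        Finset.sum_congr rfl fun α hα => (fj_qt χ hn0 (mem_bxs.1 hα).1).symm
      rw [h6, mul_one_div, le_div_iff₀ hN𝔫]
      rw [← hs] at h5
      refine le_trans ?_ h5
      refine mul_le_mul_of_nonneg_left ?_ (norm_nonneg _)
      exact le_mul_of_one_le_right hN𝔫.le hs1
    have hRp : R ^ (n - 1) ≤ (2 * C₁ * s) * X ^ (1 - 1 / (n : ℝ)) := by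
      rw [hRe, uni_root1 hn hY]
      have he : 0 ≤ 1 - 1 / (n : ℝ) := by
        rw [sub_nonneg, div_le_one (by positivity)]
        exact_mod_cast hn
      have he1 : 1 - 1 / (n : ℝ) ≤ 1 := by
        have : 0 ≤ 1 / (n : ℝ) := by positivity
        linarith
      rw [Real.mul_rpow (by linarith) (by linarith)]
      refine mul_le_mul_of_nonneg_right ?_ (Real.rpow_nonneg (by linarith) _)
      calc (2 * C₁ * s) ^ (1 - 1 / (n : ℝ)) ≤ (2 * C₁ * s) ^ (1 : ℝ) :=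
            Real.rpow_le_rpow_of_exponent_le (by linarith) he1
        _ = 2 * C₁ * s := Real.rpow_one _
    have hlogZ : Real.log (2 * C₁ * s) ≤ 2 * C₁ * s := by
      have := Real.log_le_sub_one_of_pos (show 0 < 2 * C₁ * s by linarith)
      linarith
    have hXp : 0 ≤ X ^ (1 - 1 / (n : ℝ)) := Real.rpow_nonneg (by linarith) _
    obtain ⟨P, hP⟩ : ∃ P : ℝ, P = X ^ (1 - 1 / (n : ℝ)) := ⟨_, rfl⟩
    rw [← hP] at hRp hXp ⊢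
    rw [← hdd, ← hQ]
    have hs0 : 0 ≤ s := by linarith
    have hN0 : 0 ≤ N := by linarith
    have hd0 : 0 ≤ d := by linarith
    calc ‖∑ 𝔫 ∈ IN F (2 * C₁ * s), ∑ α ∈ bxs 𝔫 R, χ.χ (qt 𝔫 α)‖
        ≤ ∑ 𝔫 ∈ IN F (2 * C₁ * s), ‖∑ α ∈ bxs 𝔫 R, χ.χ (qt 𝔫 α)‖ := norm_sum_le _ _
      _ ≤ ∑ 𝔫 ∈ IN F (2 * C₁ * s), C₃ * (R ^ (n - 1) * ρ) * (1 / Ideal.absNorm 𝔫) :=
          Finset.sum_le_sum hone
      _ = C₃ * (R ^ (n - 1) * ρ) * ∑ 𝔫 ∈ IN F (2 * C₁ * s), (1 : ℝ) / Ideal.absNorm 𝔫 := by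
          rw [Finset.mul_sum]
      _ ≤ C₃ * (R ^ (n - 1) * ρ) * (C₄ * Real.log (2 * C₁ * s) ^ n) :=
          mul_le_mul_of_nonneg_left hsum (by positivity)
      _ ≤ C₃ * (R ^ (n - 1) * ρ) * (C₄ * (2 * C₁ * s) ^ n) := by
          refine mul_le_mul_of_nonneg_left ?_ (by positivity)
          exact mul_le_mul_of_nonneg_left (pow_le_pow_left₀ hlog hlogZ n) (by linarith)
      _ ≤ C₃ * ((2 * C₁ * s * P) * (C₃ * d ^ A₃ * (2 * C₁ * s) * N)) * (C₄ * (2 * C₁ * s) ^ n) := by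
          refine mul_le_mul_of_nonneg_right ?_ (by positivity)
          refine mul_le_mul_of_nonneg_left ?_ (by linarith)
          exact mul_le_mul hRp hρW hρ0.le (by positivity)
      _ = E₂ * (P * (s ^ (n + 2) * (d ^ A₃ * N))) := by
          rw [hE₂, mul_pow (2 * C₁) s n]
          ring
      _ ≤ E₂ * (P * Q) := by
          refine mul_le_mul_of_nonneg_left ?_ hE₂0
          exact mul_le_mul_of_nonneg_left hq4 hXp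
      _ ≤ (C₂ + C₃ + 2 * C₁ + E₁ + E₂) * (P * Q) := by
          refine mul_le_mul_of_nonneg_right (by linarith) ?_
          positivity

end H57.TLS
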