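import Pool.Agent.H36.QA.ADefs
import Pool.Agent.H63.MA.IdOrth
import Pool.Agent.H63.MA.RayC

/-!
TLS (MP_b39724_nt): the large sieve for ray class characters, uniform in the field (definitions).

`Bx R α`: all absolute values of the integer `α` are at most `R`. `PN χ`: the character is not trivial on the principal ideals.
`prc χ χ'`: the character `χ * conj χ'`. `bxs 𝔫 R`: the nonzero elements of `𝔫` in the box.
-/

set_option autoImplicit false

open scoped NumberField ComplexConjugate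
open NumberField H63.MA H36.QA

noncomputable section

namespace H57.TLS

variable {F : Type} [Field F] [NumberField F]

/-- all absolute values of `α` are at most `R` -/
def Bx (R : ℝ) (α : 𝓞 F) : Prop := ∀ w : InfinitePlace F, w (α : F) ≤ R

theorem finite_bx (R : ℝ) : {α : 𝓞 F | Bx R α}.Finite := by
  have h := NumberField.Embeddings.finite_of_norm_le F ℂ R
  refine Set.Finite.of_finite_image (f := fun α : 𝓞 F => (α : F)) ?_ (fun a _ b _ hab => by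
    exact RingOfIntegers.ext hab)
  refine h.subset ?_
  rintro _ ⟨α, hα, rfl⟩
  refine ⟨RingOfIntegers.isIntegral_coe α, fun φ => ?_⟩
  have h1 := hα (InfinitePlace.mk φ)
  rwa [InfinitePlace.apply] at h1

/-- the character is not trivial on the principal ideals prime to the modulus -/
def PN {𝔣 : Ideal (𝓞 F)} (χ : RC F 𝔣) : Prop :=
  ∃ x : 𝓞 F, x ≠ 0 ∧ IsCoprime (Ideal.span {x}) 𝔣 ∧ χ.χ (Ideal.span {x}) ≠ 1

/-- complex conjugation -/
def cj : ℂ →*₀ ℂ := (starRingEnd ℂ).toMonoidWithZeroHom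

theorem cj_apply (z : ℂ) : cj z = conj z := rfl

/-- the homomorphism `χ * conj χ'` -/
def prm (χ χ' : Ideal (𝓞 F) →*₀ ℂ) : Ideal (𝓞 F) →*₀ ℂ := χ * cj.comp χ'

theorem prm_apply (χ χ' : Ideal (𝓞 F) →*₀ ℂ) (I : Ideal (𝓞 F)) : prm χ χ' I = χ I * conj (χ' I) := rfl

/-- the character `χ * conj χ'` -/
def prc {𝔣 𝔣' : Ideal (𝓞 F)} (χ : RC F 𝔣) (χ' : RC F 𝔣') : RC F (𝔣 * 𝔣') where
  χ := prm χ.χ χ'.χ
  norm_one := by
    intro I hI hc
    rw [prm_apply, norm_mul, RCLike.norm_conj, χ.norm_one I hI (hc.of_mul_right_left),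
      χ'.norm_one I hI (hc.of_mul_right_right), mul_one]
  zero_of := by
    intro I hc
    rw [prm_apply]
    by_cases h1 : IsCoprime I 𝔣
    · have h2 : ¬ IsCoprime I 𝔣' := fun h2 => hc (h1.mul_right h2)
      rw [χ'.zero_of I h2, map_zero, mul_zero]
    · rw [χ.zero_of I h1, zero_mul]
  ray := by
    intro x hx hx1
    have h1 : 𝔣 * 𝔣' ≤ 𝔣 := Ideal.mul_le_left
    have h2 : 𝔣 * 𝔣' ≤ 𝔣' := Ideal.mul_le_right
    rw [prm_apply, χ.ray x hx (h1 hx1), χ'.ray x hx (h2 hx1), map_one, mul_one]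

theorem prc_apply {𝔣 𝔣' : Ideal (𝓞 F)} (χ : RC F 𝔣) (χ' : RC F 𝔣') (I : Ideal (𝓞 F)) :
    (prc χ χ').χ I = χ.χ I * conj (χ'.χ I) := rfl

theorem finite_bxs (𝔫 : Ideal (𝓞 F)) (R : ℝ) : {α : 𝓞 F | α ∈ 𝔫 ∧ α ≠ 0 ∧ Bx R α}.Finite :=
  (finite_bx R).subset fun _ h => h.2.2

/-- the nonzero elements of `𝔫` in the box -/
def bxs (𝔫 : Ideal (𝓞 F)) (R : ℝ) : Finset (𝓞 F) := (finite_bxs 𝔫 R).toFinset

theorem mem_bxs {𝔫 : Ideal (𝓞 F)} {R : ℝ} {α : 𝓞 F} : α ∈ bxs 𝔫 R ↔ α ∈ 𝔫 ∧ α ≠ 0 ∧ Bx R α := by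
  unfold bxs
  rw [Set.Finite.mem_toFinset]
  rfl

end H57.TLS
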