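import Mathlib

/-!
[H57 TLS GCS]  Two Cauchy steps (50-80 lines, Mathlib only).

`‖∑ f‖² ≤ #B #C ∑_{b,c} ‖∑_a f‖² = #B #C ∑_{a,a'} ∑_{b,c} f(a,b,c) conj f(a',b,c)`, and
`(∑_{a,a'} ‖∑_{b,c} h‖)² ≤ (#A)² ∑_{a,a'} ‖∑_{b,c} h‖² ≤ (#A)² #C ∑_{a,a'} ∑_c ‖∑_b h‖²
 = (#A)² #C ∑_{a,a'} ∑_{b,b'} ∑_c h(b,c) conj h(b',c) ≤ (#A)² #C ∑_{a,a',b'} ‖∑_b ∑_c ..‖`.
-/

set_option autoImplicit false

open scoped ComplexConjugate

noncomputable section

namespace H57.TLS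

/-- the product over the four vertices -/
def q4 {A B C : Type} (f : A → B → C → ℂ) (a a' : A) (b b' : B) (c : C) : ℂ :=
  f a b c * conj (f a' b c) * (conj (f a b' c) * f a' b' c)

/-- Cauchy: square of a sum of norms -/
private theorem sq_sum_le {ι : Type} [Fintype ι] (g : ι → ℝ) :
    (∑ i, g i) ^ 2 ≤ (Fintype.card ι : ℝ) * ∑ i, g i ^ 2 := by
  have h := sq_sum_le_card_mul_sum_sq (s := (Finset.univ : Finset ι)) (f := g)
  simpa using h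

private theorem norm_sq_sum {ι : Type} [Fintype ι] (g : ι → ℂ) :
    ((‖∑ i, g i‖ ^ 2 : ℝ) : ℂ) = ∑ i, ∑ j, g i * conj (g j) := by
  have h : ((‖∑ i, g i‖ ^ 2 : ℝ) : ℂ) = (∑ i, g i) * conj (∑ i, g i) := by
    rw [Complex.mul_conj, Complex.normSq_eq_norm_sq]
  rw [h, map_sum, Finset.sum_mul_sum]

/-- norm of a sum of squares of norms -/
private theorem sum_norm_sq_le {ι κ : Type} [Fintype ι] [Fintype κ] (g : κ → ι → ℂ) :
    ∑ k, ‖∑ i, g k i‖ ^ 2 ≤ ∑ i, ∑ j, ‖∑ k, g k i * conj (g k j)‖ := by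
  have h1 : ((∑ k, ‖∑ i, g k i‖ ^ 2 : ℝ) : ℂ) = ∑ i, ∑ j, ∑ k, g k i * conj (g k j) := by
    rw [Complex.ofReal_sum]
    simp_rw [norm_sq_sum]
    rw [Finset.sum_comm]
    refine Finset.sum_congr rfl (fun i _ => ?_)
    rw [Finset.sum_comm]
  have h2 : 0 ≤ ∑ k, ‖∑ i, g k i‖ ^ 2 := Finset.sum_nonneg (fun k _ => by positivity)
  have h3 : ∑ k, ‖∑ i, g k i‖ ^ 2 = ‖∑ i, ∑ j, ∑ k, g k i * conj (g k j)‖ := by
    rw [← h1, Complex.norm_real, Real.norm_eq_abs, abs_of_nonneg h2]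
  rw [h3]
  refine (norm_sum_le _ _).trans (Finset.sum_le_sum (fun i _ => norm_sum_le _ _))

theorem gcs {A B C : Type} [Fintype A] [Fintype B] [Fintype C] (f : A → B → C → ℂ) :
    ‖∑ a, ∑ b, ∑ c, f a b c‖ ^ 4 ≤ (Fintype.card A : ℝ) ^ 2 * (Fintype.card B : ℝ) ^ 2 * (Fintype.card C : ℝ) ^ 3 *
      ∑ a, ∑ a', ∑ b', ‖∑ b, ∑ c, q4 f a a' b b' c‖ := by
  -- first step
  set S : ℝ := ∑ a, ∑ a', ‖∑ p : B × C, f a p.1 p.2 * conj (f a' p.1 p.2)‖ with hS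
  have h1 : ‖∑ a, ∑ b, ∑ c, f a b c‖ ^ 2 ≤ (Fintype.card B * Fintype.card C : ℝ) * S := by
    have e1 : ∑ a, ∑ b, ∑ c, f a b c = ∑ p : B × C, ∑ a, f a p.1 p.2 := by
      rw [Finset.sum_comm (s := (Finset.univ : Finset (B × C)))]
      refine Finset.sum_congr rfl (fun a _ => ?_)
      rw [Fintype.sum_prod_type]
    have e2 : ‖∑ a, ∑ b, ∑ c, f a b c‖ ^ 2 ≤ (∑ p : B × C, ‖∑ a, f a p.1 p.2‖) ^ 2 := by
      rw [e1]
      exact pow_le_pow_left₀ (norm_nonneg _) (norm_sum_le _ _) 2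
    have e3 := sq_sum_le (fun p : B × C => ‖∑ a, f a p.1 p.2‖)
    have e4 := sum_norm_sq_le (fun (p : B × C) (a : A) => f a p.1 p.2)
    rw [Fintype.card_prod] at e3
    push_cast at e3
    calc ‖∑ a, ∑ b, ∑ c, f a b c‖ ^ 2 ≤ _ := e2
      _ ≤ _ := e3
      _ ≤ _ := mul_le_mul_of_nonneg_left e4 (by positivity)
  -- second step
  have h2 : S ^ 2 ≤ (Fintype.card A : ℝ) ^ 2 * (Fintype.card C : ℝ) *
      ∑ a, ∑ a', ∑ b', ‖∑ b, ∑ c, q4 f a a' b b' c‖ := by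
    have e1 : S = ∑ q : A × A, ‖∑ p : B × C, f q.1 p.1 p.2 * conj (f q.2 p.1 p.2)‖ := by
      rw [hS, Fintype.sum_prod_type]
    have e2 := sq_sum_le (fun q : A × A => ‖∑ p : B × C, f q.1 p.1 p.2 * conj (f q.2 p.1 p.2)‖)
    rw [← e1, Fintype.card_prod] at e2
    push_cast at e2
    have e3 : ∀ q : A × A, ‖∑ p : B × C, f q.1 p.1 p.2 * conj (f q.2 p.1 p.2)‖ ^ 2 ≤
        (Fintype.card C : ℝ) * ∑ b', ‖∑ b, ∑ c, q4 f q.1 q.2 b b' c‖ := by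
      intro q
      have k1 : ∑ p : B × C, f q.1 p.1 p.2 * conj (f q.2 p.1 p.2) =
          ∑ c, ∑ b, f q.1 b c * conj (f q.2 b c) := by
        rw [Fintype.sum_prod_type, Finset.sum_comm]
      have k2 : ‖∑ c, ∑ b, f q.1 b c * conj (f q.2 b c)‖ ^ 2 ≤
          (∑ c, ‖∑ b, f q.1 b c * conj (f q.2 b c)‖) ^ 2 :=
        pow_le_pow_left₀ (norm_nonneg _) (norm_sum_le _ _) 2
      have k3 := sq_sum_le (fun c : C => ‖∑ b, f q.1 b c * conj (f q.2 b c)‖)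
      -- exact sum over `b, b'`
      have k4 : ∑ c, ‖∑ b, f q.1 b c * conj (f q.2 b c)‖ ^ 2 ≤
          ∑ b', ‖∑ b, ∑ c, q4 f q.1 q.2 b b' c‖ := by
        have m1 : ((∑ c, ‖∑ b, f q.1 b c * conj (f q.2 b c)‖ ^ 2 : ℝ) : ℂ) =
            ∑ b', ∑ b, ∑ c, q4 f q.1 q.2 b b' c := by
          rw [Complex.ofReal_sum]
          simp_rw [norm_sq_sum]
          rw [Finset.sum_comm]
          rw [Finset.sum_comm (s := (Finset.univ : Finset B)) (t := (Finset.univ : Finset B))]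
          refine Finset.sum_congr rfl (fun b _ => ?_)
          rw [Finset.sum_comm]
          refine Finset.sum_congr rfl (fun b' _ => ?_)
          refine Finset.sum_congr rfl (fun c _ => ?_)
          simp [q4]
        have m2 : 0 ≤ ∑ c, ‖∑ b, f q.1 b c * conj (f q.2 b c)‖ ^ 2 :=
          Finset.sum_nonneg (fun k _ => by positivity)
        have m3 : ∑ c, ‖∑ b, f q.1 b c * conj (f q.2 b c)‖ ^ 2 =
            ‖∑ b', ∑ b, ∑ c, q4 f q.1 q.2 b b' c‖ := by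
          rw [← m1, Complex.norm_real, Real.norm_eq_abs, abs_of_nonneg m2]
        rw [m3]
        exact norm_sum_le _ _
      rw [k1]
      calc _ ≤ _ := k2
        _ ≤ _ := k3
        _ ≤ _ := mul_le_mul_of_nonneg_left k4 (by positivity)
    calc S ^ 2 ≤ _ := e2
      _ ≤ (Fintype.card A * Fintype.card A : ℝ) *
          ∑ q : A × A, (Fintype.card C : ℝ) * ∑ b', ‖∑ b, ∑ c, q4 f q.1 q.2 b b' c‖ :=
        mul_le_mul_of_nonneg_left (Finset.sum_le_sum (fun q _ => e3 q)) (by positivity)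
      _ = _ := by
        rw [← Finset.mul_sum, Fintype.sum_prod_type]
        ring
  have hS0 : 0 ≤ S := Finset.sum_nonneg (fun a _ => Finset.sum_nonneg (fun a' _ => norm_nonneg _))
  calc ‖∑ a, ∑ b, ∑ c, f a b c‖ ^ 4 = (‖∑ a, ∑ b, ∑ c, f a b c‖ ^ 2) ^ 2 := by ring
    _ ≤ ((Fintype.card B * Fintype.card C : ℝ) * S) ^ 2 :=
      pow_le_pow_left₀ (by positivity) h1 2
    _ = (Fintype.card B * Fintype.card C : ℝ) ^ 2 * S ^ 2 := by ring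
    _ ≤ (Fintype.card B * Fintype.card C : ℝ) ^ 2 * ((Fintype.card A : ℝ) ^ 2 * (Fintype.card C : ℝ) *
      ∑ a, ∑ a', ∑ b', ‖∑ b, ∑ c, q4 f a a' b b' c‖) := mul_le_mul_of_nonneg_left h2 (by positivity)
    _ = _ := by ring

end H57.TLS
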