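import Pool.Agent.H57.TLS.Amp
import Pool.Agent.H57.TLS.Gcs

/-!
[H57 TLS BBX]  The trilinear large sieve as a black box (80-120 lines).

`amp` gives `k, C₁` for `n, B, b`. `gcs`; for `a = a'` the inner sum is at most `#B₂ #C₃` (`|q4| ≤ 1`), total `#A #B₂² #C₃`. For `a ≠ a'` and
fixed `b'`: the hypothesis writes `q4` as a convex combination `∑_i w_i u_i(b) v_i(c) χ_{i,b}(P c)`, so
`‖∑_b ∑_c q4‖ ≤ ∑_i w_i ∑_b ‖∑_c v_i(c) χ_{i,b}(P c)‖ ≤ C₁ #B₂^(1 - 1/(2k)) Z (log Z)^n` (`b ∈ okb`, `c ∈ okc`) by `amp` with `J` = the subtype `okb`, `Q = P '' okc` (`P` injective,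
`y` = `v_i` transported). So `‖∑ f‖⁴ ≤ #A² #B₂² #C₃³ (#A #B₂² #C₃ + #A² #B₂ C₁ #B₂^(1 - 1/(2k)) Z (log Z)^n)`
`≤ (Z₁ Z₂ Z)⁴ b⁴ (Z₁⁻¹ + C₁ Z₂^(-1/(2k)) (log Z)^n)` (all exponents of `#A, #B₂, #C₃` are nonnegative: replace them by `Z₁, Z₂, b Z`,
`b ≥ 1`). Fourth root: `(x + y)^(1/4) ≤ x^(1/4) + y^(1/4)`; `c = 1/(8k)`.
-/

set_option autoImplicit false

open scoped NumberField
open NumberField H63.MA H36.QA

noncomputable section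

namespace H57.TLS

/-- the data for one pair `a ≠ a'` and one base point `b'`: a field, primes, and characters which compute the product over the four vertices;
outside `okb`, `okc` the product is zero -/
structure TL (n B : ℕ) {A₁ B₂ C₃ : Type} (Z : ℝ) (f : A₁ → B₂ → C₃ → ℂ) (a a' : A₁) (b' : B₂) : Type 1 where
  L : Type
  [fL : Field L]
  [nL : NumberField L]
  tc : TC L n
  disc : dd L ≤ Z ^ B
  okb : Set B₂
  okc : Set C₃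
  zero : ∀ b c, b ∉ okb ∨ c ∉ okc → q4 f a a' b b' c = 0
  P : C₃ → Pl L
  inj : Set.InjOn P okc
  nlo : ∀ c ∈ okc, Z < nm (P c)
  nhi : ∀ c ∈ okc, (nm (P c) : ℝ) ≤ 2 * Z
  m : ℕ
  w : Fin m → ℝ
  w0 : ∀ i, 0 ≤ w i
  w1 : ∑ i, w i ≤ 1
  u : Fin m → B₂ → ℂ
  v : Fin m → C₃ → ℂ
  u1 : ∀ i b, ‖u i b‖ ≤ 1
  v1 : ∀ i c, ‖v i c‖ ≤ 1
  𝔣 : Fin m → B₂ → Ideal (𝓞 L)
  χ : ∀ i b, RC L (𝔣 i b)
  f0 : ∀ i, ∀ b ∈ okb, 𝔣 i b ≠ ⊥
  fN : ∀ i, ∀ b ∈ okb, (Ideal.absNorm (𝔣 i b) : ℝ) ≤ Z ^ B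
  pn : ∀ i, ∀ b ∈ okb, ∀ b₁ ∈ okb, b ≠ b₁ → PN (prc (χ i b) (χ i b₁))
  eq : ∀ b ∈ okb, ∀ c ∈ okc, q4 f a a' b b' c = ∑ i, (w i : ℂ) * (u i b * v i c * (χ i b).χ (P c).asIdeal)

/-- the inner sum for one pair `a ≠ a'` and one base point -/
theorem tl_bound {n B k : ℕ} (hk : 1 ≤ k) {b C₁ : ℝ} (hC₁ : 1 ≤ C₁)
    (hamp : ∀ (F : Type) [Field F] [NumberField F], TC F n → ∀ Z : ℝ, 2 ≤ Z → dd F ≤ Z ^ B →
      ∀ (J : Type) [Fintype J] (𝔣 : J → Ideal (𝓞 F)) (χ : ∀ j, RC F (𝔣 j)), (Fintype.card J : ℝ) ≤ Z ^ B → (∀ j, 𝔣 j ≠ ⊥) →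
      (∀ j, (Ideal.absNorm (𝔣 j) : ℝ) ≤ Z ^ B) → (∀ j j', j ≠ j' → PN (prc (χ j) (χ j'))) →
      ∀ (Q : Finset (Pl F)), (∀ v ∈ Q, Z < nm v ∧ (nm v : ℝ) ≤ 2 * Z) → (Q.card : ℝ) ≤ b * Z →
      ∀ y : Pl F → ℂ, (∀ v, ‖y v‖ ≤ 1) →
        ∑ j, ‖∑ v ∈ Q, y v * (χ j).χ v.asIdeal‖ ≤
          C₁ * ((Fintype.card J : ℝ) ^ (1 - 1 / (2 * k : ℝ)) * (Z * Real.log Z ^ n)))
    {A₁ B₂ C₃ : Type} [Fintype B₂] [Fintype C₃] {Z₂ Z : ℝ} (hZ : 2 ≤ Z) (hZ₂B : Z₂ ≤ Z ^ B)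
    (hB₂ : (Fintype.card B₂ : ℝ) ≤ Z₂) (hC₃ : (Fintype.card C₃ : ℝ) ≤ b * Z) {f : A₁ → B₂ → C₃ → ℂ} {a a' : A₁} {b' : B₂}
    (T : TL n B Z f a a' b') :
    ‖∑ b, ∑ c, q4 f a a' b b' c‖ ≤ C₁ * (Z₂ ^ (1 - 1 / (2 * k : ℝ)) * (Z * Real.log Z ^ n)) := by
  classical
  obtain ⟨L, tc, disc, okb, okc, zero, P, inj, nlo, nhi, m, w, w0, w1, u, v, u1, v1, 𝔣, χ, f0, fN, pn, eq⟩ := T
  have hlog : 0 ≤ Real.log Z := Real.log_nonneg (by linarith)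
  have hk' : (1 : ℝ) ≤ k := by exact_mod_cast hk
  have hexp : 0 ≤ 1 - 1 / (2 * k : ℝ) := by
    rw [sub_nonneg, div_le_one (by positivity)]; linarith
  have hZ₂0 : 0 ≤ Z₂ := (Nat.cast_nonneg _).trans hB₂
  -- restrict the sums
  have h1 : ∑ b, ∑ c, q4 f a a' b b' c =
      ∑ j : okb, ∑ c ∈ Finset.univ.filter (· ∈ okc), q4 f a a' (j : B₂) b' c := by
    have h2 : ∀ b, ∑ c, q4 f a a' b b' c = ∑ c ∈ Finset.univ.filter (· ∈ okc), q4 f a a' b b' c := by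
      intro b
      rw [Finset.sum_filter]
      refine Finset.sum_congr rfl fun c _ => ?_
      by_cases hc : c ∈ okc
      · rw [if_pos hc]
      · rw [if_neg hc]; exact zero b c (Or.inr hc)
    simp_rw [h2]
    have h3 : ∑ b, ∑ c ∈ Finset.univ.filter (· ∈ okc), q4 f a a' b b' c =
        ∑ b ∈ Finset.univ.filter (· ∈ okb), ∑ c ∈ Finset.univ.filter (· ∈ okc), q4 f a a' b b' c := by
      rw [Finset.sum_filter]
      refine Finset.sum_congr rfl fun b _ => ?_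
      by_cases hb : b ∈ okb
      · rw [if_pos hb]
      · rw [if_neg hb]
        exact Finset.sum_eq_zero fun c _ => zero b c (Or.inl hb)
    rw [h3]
    exact Finset.sum_subtype _ (by simp) _
  set OC : Finset C₃ := Finset.univ.filter (· ∈ okc) with hOC
  have hmem : ∀ c, c ∈ OC ↔ c ∈ okc := by simp [hOC]
  set Q : Finset (Pl L) := OC.image P with hQ
  have hQcard : (Q.card : ℝ) ≤ b * Z := by
    refine le_trans ?_ hC₃
    exact_mod_cast Finset.card_image_le.trans (Finset.card_le_univ _)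
  have hQnm : ∀ p ∈ Q, Z < nm p ∧ (nm p : ℝ) ≤ 2 * Z := by
    intro p hp
    obtain ⟨c, hc, rfl⟩ := Finset.mem_image.1 hp
    exact ⟨nlo c ((hmem c).1 hc), nhi c ((hmem c).1 hc)⟩
  have hJcard : (Fintype.card okb : ℝ) ≤ Z₂ := by
    refine le_trans ?_ hB₂
    exact_mod_cast Fintype.card_subtype_le _
  -- the transported coefficients
  let y : Fin m → Pl L → ℂ := fun i p => if h : ∃ c ∈ okc, P c = p then v i h.choose else 0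
  have hy : ∀ i, ∀ c ∈ okc, y i (P c) = v i c := by
    intro i c hc
    have h : ∃ c' ∈ okc, P c' = P c := ⟨c, hc, rfl⟩
    have h2 : h.choose = c := inj h.choose_spec.1 hc h.choose_spec.2
    change (if h : ∃ c' ∈ okc, P c' = P c then v i h.choose else 0) = v i c
    rw [dif_pos h, h2]
  have hy1 : ∀ i p, ‖y i p‖ ≤ 1 := by
    intro i p
    change ‖(if h : ∃ c' ∈ okc, P c' = p then v i h.choose else 0)‖ ≤ 1
    split_ifs with h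
    · exact v1 i _
    · rw [norm_zero]; exact zero_le_one
  have hA : ∀ i, ∑ j : okb, ‖∑ p ∈ Q, y i p * (χ i j).χ p.asIdeal‖ ≤
      C₁ * (Z₂ ^ (1 - 1 / (2 * k : ℝ)) * (Z * Real.log Z ^ n)) := by
    intro i
    have h4 := hamp L tc Z hZ disc okb (fun j => 𝔣 i j) (fun j => χ i j) (hJcard.trans hZ₂B)
      (fun j => f0 i j j.2) (fun j => fN i j j.2)
      (fun j j' hjj => pn i j j.2 j' j'.2 fun h => hjj (Subtype.ext h)) Q hQnm hQcard (y i) (hy1 i)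
    refine h4.trans ?_
    refine mul_le_mul_of_nonneg_left ?_ (by linarith)
    refine mul_le_mul_of_nonneg_right ?_ (by positivity)
    exact Real.rpow_le_rpow (Nat.cast_nonneg _) hJcard hexp
  have hsum : ∀ (i : Fin m) (j : okb), ∑ p ∈ Q, y i p * (χ i j).χ p.asIdeal =
      ∑ c ∈ OC, v i c * (χ i j).χ (P c).asIdeal := by
    intro i j
    rw [hQ, Finset.sum_image fun c hc c' hc' h => inj ((hmem c).1 hc) ((hmem c').1 hc') h]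
    refine Finset.sum_congr rfl fun c hc => ?_
    rw [hy i c ((hmem c).1 hc)]
  have h5 : ∀ j : okb, ∑ c ∈ OC, q4 f a a' (j : B₂) b' c =
      ∑ i, (w i : ℂ) * (u i j * ∑ c ∈ OC, v i c * (χ i j).χ (P c).asIdeal) := by
    intro j
    rw [Finset.sum_congr rfl fun c hc => eq j j.2 c ((hmem c).1 hc), Finset.sum_comm]
    refine Finset.sum_congr rfl fun i _ => ?_
    rw [Finset.mul_sum, Finset.mul_sum]
    refine Finset.sum_congr rfl fun c _ => ?_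
    ring
  rw [h1, Finset.sum_congr rfl fun j _ => h5 j, Finset.sum_comm]
  refine (norm_sum_le _ _).trans ?_
  have h6 : ∀ i, ‖∑ j : okb, (w i : ℂ) * (u i j * ∑ c ∈ OC, v i c * (χ i j).χ (P c).asIdeal)‖ ≤
      w i * (C₁ * (Z₂ ^ (1 - 1 / (2 * k : ℝ)) * (Z * Real.log Z ^ n))) := by
    intro i
    rw [← Finset.mul_sum, norm_mul, Complex.norm_real, Real.norm_of_nonneg (w0 i)]
    refine mul_le_mul_of_nonneg_left ?_ (w0 i)
    refine le_trans ((norm_sum_le _ _).trans (Finset.sum_le_sum fun j _ => ?_)) (hA i)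
    rw [norm_mul, hsum]
    have h7 := u1 i j
    have h8 := norm_nonneg (∑ c ∈ OC, v i c * (χ i j).χ (P c).asIdeal)
    nlinarith
  refine (Finset.sum_le_sum fun i _ => h6 i).trans ?_
  rw [← Finset.sum_mul]
  have h9 : 0 ≤ C₁ * (Z₂ ^ (1 - 1 / (2 * k : ℝ)) * (Z * Real.log Z ^ n)) := by positivity
  nlinarith

theorem tls (n : ℕ) (hn : 0 < n) (B : ℕ) (b : ℝ) : ∃ c : ℝ, 0 < c ∧ ∃ C : ℝ, 1 ≤ C ∧
    ∀ (A₁ B₂ C₃ : Type) [Fintype A₁] [Fintype B₂] [Fintype C₃] (Z₁ Z₂ Z : ℝ), 1 ≤ Z₁ → 1 ≤ Z₂ → 2 ≤ Z → Z₂ ≤ Z ^ B →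
      (Fintype.card A₁ : ℝ) ≤ Z₁ → (Fintype.card B₂ : ℝ) ≤ Z₂ → (Fintype.card C₃ : ℝ) ≤ b * Z →
      ∀ f : A₁ → B₂ → C₃ → ℂ, (∀ a b c, ‖f a b c‖ ≤ 1) → (∀ a a' b', a ≠ a' → Nonempty (TL n B Z f a a' b')) →
        ‖∑ a, ∑ b, ∑ c, f a b c‖ ≤ C * (Z₁ * Z₂ * Z * (Z₁ ^ (-c) + Z₂ ^ (-c) * Real.log Z ^ n)) := by
  classical
  obtain ⟨k, hk, C₁, hC₁, hamp⟩ := amp n hn B b
  have hk' : (1 : ℝ) ≤ k := by exact_mod_cast hk
  set c : ℝ := 1 / (8 * k) with hc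
  have hc0 : 0 < c := by positivity
  set b₁ : ℝ := max b 1 with hb₁
  have hb1 : 1 ≤ b₁ := le_max_right _ _
  refine ⟨c, hc0, b₁ * C₁ * 2 ^ n, ?_, ?_⟩
  · have h1 : (1 : ℝ) ≤ b₁ * C₁ := one_le_mul_of_one_le_of_one_le hb1 hC₁
    exact one_le_mul_of_one_le_of_one_le h1 (one_le_pow₀ (by norm_num))
  intro A₁ B₂ C₃ _ _ _ Z₁ Z₂ Z hZ₁ hZ₂ hZ hZ₂B hA hB hC f hf hT
  set t : ℝ := Real.log Z with ht
  have ht2 : 1 / 2 ≤ t := by
    have h1 : Real.log 2 ≤ t := Real.log_le_log (by norm_num) hZ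
    have h2 := Real.log_two_gt_d9
    linarith
  have ht0 : 0 ≤ t := by linarith
  have hC' : (Fintype.card C₃ : ℝ) ≤ b₁ * Z :=
    hC.trans (mul_le_mul_of_nonneg_right (le_max_left _ _) (by linarith))
  -- the norm of q4
  have hq : ∀ a a' b b' c, ‖q4 f a a' b b' c‖ ≤ 1 := by
    intro a a' b b' c
    unfold q4
    rw [norm_mul, norm_mul, norm_mul, RCLike.norm_conj, RCLike.norm_conj]
    have h1 := mul_le_one₀ (hf a b c) (norm_nonneg _) (hf a' b c)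
    have h2 := mul_le_one₀ (hf a b' c) (norm_nonneg _) (hf a' b' c)
    exact mul_le_one₀ h1 (by positivity) h2
  set D : ℝ := (Fintype.card B₂ : ℝ) * Fintype.card C₃ with hD
  set E : ℝ := C₁ * (Z₂ ^ (1 - 1 / (2 * k : ℝ)) * (Z * t ^ n)) with hE
  have hE0 : 0 ≤ E := by positivity
  have hin : ∀ a a' b', ‖∑ b, ∑ c, q4 f a a' b b' c‖ ≤ (if a = a' then D else 0) + E := by
    intro a a' b'
    by_cases haa : a = a'
    · rw [if_pos haa]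
      have h1 : ‖∑ b, ∑ c, q4 f a a' b b' c‖ ≤ D := by
        refine (norm_sum_le _ _).trans ?_
        have h2 : ∀ b, ‖∑ c, q4 f a a' b b' c‖ ≤ Fintype.card C₃ := by
          intro b
          refine (norm_sum_le _ _).trans ?_
          refine (Finset.sum_le_sum fun c _ => hq a a' b b' c).trans ?_
          simp
        refine (Finset.sum_le_sum fun b _ => h2 b).trans ?_
        rw [Finset.sum_const, Finset.card_univ, nsmul_eq_mul]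
      linarith
    · rw [if_neg haa, zero_add]
      obtain ⟨T⟩ := hT a a' b' haa
      exact tl_bound hk hC₁ hamp hZ hZ₂B hB hC T
  have hS : ∑ a, ∑ a', ∑ b', ‖∑ b, ∑ c, q4 f a a' b b' c‖ ≤
      (Fintype.card A₁ : ℝ) * Fintype.card B₂ * D + (Fintype.card A₁ : ℝ) ^ 2 * Fintype.card B₂ * E := by
    calc ∑ a, ∑ a', ∑ b', ‖∑ b, ∑ c, q4 f a a' b b' c‖
        ≤ ∑ a : A₁, ∑ a' : A₁, ∑ _b' : B₂, ((if a = a' then D else 0) + E) :=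
          Finset.sum_le_sum fun a _ => Finset.sum_le_sum fun a' _ => Finset.sum_le_sum fun b' _ => hin a a' b'
      _ = _ := by
          simp only [Finset.sum_add_distrib, Finset.sum_const, Finset.card_univ, nsmul_eq_mul]
          simp only [← Finset.mul_sum]
          simp only [Finset.sum_ite_eq, Finset.mem_univ, if_true, Finset.sum_const, Finset.card_univ, nsmul_eq_mul]
          ring
  have hg := gcs f
  set N : ℝ := ‖∑ a, ∑ b, ∑ c, f a b c‖ with hN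
  set x : ℝ := Z₁ ^ (-c) with hx
  set y : ℝ := Z₂ ^ (-c) with hy
  have hx0 : 0 < x := Real.rpow_pos_of_pos (by linarith) _
  have hy0 : 0 < y := Real.rpow_pos_of_pos (by linarith) _
  have hx4 : 1 ≤ Z₁ * x ^ 4 := by
    have h1 : Z₁ * x ^ 4 = Z₁ ^ (1 - 1 / (2 * k : ℝ)) := by
      rw [hx, ← Real.rpow_natCast, ← Real.rpow_mul (by linarith)]
      conv_lhs => rw [show Z₁ = Z₁ ^ (1 : ℝ) from (Real.rpow_one _).symm]
      rw [← Real.rpow_mul (by linarith), ← Real.rpow_add (by linarith), hc]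
      congr 1
      push_cast
      field_simp
      ring
    rw [h1]
    refine Real.one_le_rpow hZ₁ ?_
    rw [sub_nonneg, div_le_one (by positivity)]; linarith
  have hy4 : Z₂ ^ (1 - 1 / (2 * k : ℝ)) = Z₂ * y ^ 4 := by
    rw [hy, ← Real.rpow_natCast, ← Real.rpow_mul (by linarith)]
    conv_rhs => rw [show Z₂ = Z₂ ^ (1 : ℝ) from (Real.rpow_one _).symm]
    rw [← Real.rpow_mul (by linarith), ← Real.rpow_add (by linarith), hc]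
    congr 1
    push_cast
    field_simp
    ring
  have htn : t ^ n ≤ ((2 * t) ^ n) ^ 4 := by
    have h1 : t ^ n ≤ (2 * t) ^ n := pow_le_pow_left₀ ht0 (by linarith) n
    have h2 : 1 ≤ (2 * t) ^ n := one_le_pow₀ (by linarith)
    exact h1.trans (le_self_pow₀ h2 (by norm_num))
  have hA0 : (0 : ℝ) ≤ Fintype.card A₁ := Nat.cast_nonneg _
  have hB0 : (0 : ℝ) ≤ Fintype.card B₂ := Nat.cast_nonneg _
  have hC0 : (0 : ℝ) ≤ Fintype.card C₃ := Nat.cast_nonneg _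
  have hfin : N ^ 4 ≤ (b₁ * C₁ * (Z₁ * Z₂ * Z) * (x + y * (2 * t) ^ n)) ^ 4 := by
    have h1 : N ^ 4 ≤ (Z₁ ^ 2 * Z₂ ^ 2 * (b₁ * Z) ^ 3) *
        (Z₁ * Z₂ * (Z₂ * (b₁ * Z)) + Z₁ ^ 2 * Z₂ * E) := by
      refine hg.trans ?_
      have hD' : D ≤ Z₂ * (b₁ * Z) := mul_le_mul hB hC' hC0 (by linarith)
      have hD0 : 0 ≤ D := by positivity
      refine mul_le_mul ?_ ?_ ?_ (by positivity)
      · gcongr
      · refine hS.trans ?_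
        gcongr
      · exact Finset.sum_nonneg fun a _ => Finset.sum_nonneg fun a' _ => Finset.sum_nonneg fun b' _ => norm_nonneg _
    refine h1.trans ?_
    rw [hE, hy4]
    have h2 : (Z₁ ^ 2 * Z₂ ^ 2 * (b₁ * Z) ^ 3) *
        (Z₁ * Z₂ * (Z₂ * (b₁ * Z)) + Z₁ ^ 2 * Z₂ * (C₁ * (Z₂ * y ^ 4 * (Z * t ^ n)))) =
        (Z₁ ^ 3 * Z₂ ^ 4 * Z ^ 4 * b₁ ^ 3) * b₁ + (Z₁ * Z₂ * Z) ^ 4 * (b₁ ^ 3 * C₁ * (y ^ 4 * t ^ n)) := by ring
    rw [h2]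
    have h3 : (Z₁ ^ 3 * Z₂ ^ 4 * Z ^ 4 * b₁ ^ 3) * b₁ ≤ (Z₁ * Z₂ * Z) ^ 4 * (b₁ ^ 4 * C₁ ^ 4 * x ^ 4) := by
      have h4 : (Z₁ ^ 3 * Z₂ ^ 4 * Z ^ 4 * b₁ ^ 3) * b₁ * 1 ≤
          (Z₁ ^ 3 * Z₂ ^ 4 * Z ^ 4 * b₁ ^ 3) * b₁ * (Z₁ * x ^ 4) :=
        mul_le_mul_of_nonneg_left hx4 (by positivity)
      have h5 : 1 ≤ C₁ ^ 4 := one_le_pow₀ hC₁
      have h6 : (Z₁ ^ 3 * Z₂ ^ 4 * Z ^ 4 * b₁ ^ 3) * b₁ * (Z₁ * x ^ 4) * 1 ≤
          (Z₁ ^ 3 * Z₂ ^ 4 * Z ^ 4 * b₁ ^ 3) * b₁ * (Z₁ * x ^ 4) * C₁ ^ 4 :=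
        mul_le_mul_of_nonneg_left h5 (by positivity)
      nlinarith
    have h7 : (Z₁ * Z₂ * Z) ^ 4 * (b₁ ^ 3 * C₁ * (y ^ 4 * t ^ n)) ≤
        (Z₁ * Z₂ * Z) ^ 4 * (b₁ ^ 4 * C₁ ^ 4 * (y ^ 4 * ((2 * t) ^ n) ^ 4)) := by
      refine mul_le_mul_of_nonneg_left ?_ (by positivity)
      refine mul_le_mul ?_ (mul_le_mul_of_nonneg_left htn (by positivity)) (by positivity) (by positivity)
      refine mul_le_mul (pow_le_pow_right₀ hb1 (by norm_num)) (le_self_pow₀ hC₁ (by norm_num)) (by linarith)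
        (by positivity)
    have h8 : x ^ 4 + (y * (2 * t) ^ n) ^ 4 ≤ (x + y * (2 * t) ^ n) ^ 4 :=
      by
        have hz0 : 0 ≤ y * (2 * t) ^ n := by positivity
        have h9 : ∀ z : ℝ, 0 ≤ z → x ^ 4 + z ^ 4 ≤ (x + z) ^ 4 := by
          intro z hz
          have h10 : (x + z) ^ 4 = x ^ 4 + z ^ 4 + (4 * x ^ 3 * z + 6 * x ^ 2 * z ^ 2 + 4 * x * z ^ 3) := by ring
          rw [h10]
          have h11 : 0 ≤ 4 * x ^ 3 * z + 6 * x ^ 2 * z ^ 2 + 4 * x * z ^ 3 := by positivity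
          linarith
        exact h9 _ hz0
    calc _ ≤ (Z₁ * Z₂ * Z) ^ 4 * (b₁ ^ 4 * C₁ ^ 4 * x ^ 4) +
          (Z₁ * Z₂ * Z) ^ 4 * (b₁ ^ 4 * C₁ ^ 4 * (y ^ 4 * ((2 * t) ^ n) ^ 4)) := add_le_add h3 h7
      _ = (b₁ * C₁ * (Z₁ * Z₂ * Z)) ^ 4 * (x ^ 4 + (y * (2 * t) ^ n) ^ 4) := by ring
      _ ≤ (b₁ * C₁ * (Z₁ * Z₂ * Z)) ^ 4 * (x + y * (2 * t) ^ n) ^ 4 := mul_le_mul_of_nonneg_left h8 (by positivity)
      _ = _ := by rw [← mul_pow]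
  have hlast : N ≤ b₁ * C₁ * (Z₁ * Z₂ * Z) * (x + y * (2 * t) ^ n) :=
    le_of_pow_le_pow_left₀ (by norm_num) (by positivity) hfin
  refine hlast.trans ?_
  have h9 : x + y * (2 * t) ^ n ≤ 2 ^ n * (x + y * t ^ n) := by
    have h10 : (1 : ℝ) ≤ 2 ^ n := one_le_pow₀ (by norm_num)
    rw [mul_pow]
    nlinarith
  have h11 : b₁ * C₁ * (Z₁ * Z₂ * Z) * (x + y * (2 * t) ^ n) ≤
      b₁ * C₁ * (Z₁ * Z₂ * Z) * (2 ^ n * (x + y * t ^ n)) := mul_le_mul_of_nonneg_left h9 (by positivity)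
  refine h11.trans (le_of_eq ?_)
  ring

end H57.TLS
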