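import Pool.Agent.H57.TLS.Uni

/-!
[H57 TLS SVE]  The large sieve over `F`, uniform in the field, and its dual form (80-120 lines).

`sieve`: `uni` with `N²` in place of `N` (`N(𝔣 𝔣') ≤ N²`; `(dd N²)^A ≤ (dd N)^(2A)`: the new exponent is `2 A`). `g I = ‖∑ ε_j χ_j(I)‖²`:
`∑_{𝔪 ∈ M} g ≤ ∑_{𝔫, α} g(qt 𝔫 α) = ∑_{j, j'} ε_j conj ε_j' ∑_{𝔫, α} χ_j(..) conj χ_j'(..)`. `j = j'`: `|χ_j|² ≤ 1`
(`norm_one`, `zero_of`, `⊥ ↦ 0`), so `≤ C X (log X)^n ∑ ‖ε_j‖²`. `j ≠ j'`: `prc (χ j) (χ j')`, third part of `uni`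
(`𝔣 j * 𝔣 j' ≠ ⊥`), and `∑_{j ≠ j'} ‖ε_j‖ ‖ε_j'‖ ≤ #J ∑ ‖ε_j‖²`.
`dual`: abstract duality: if `∑_{i ∈ M} ‖∑_j ε_j a j i‖² ≤ Δ ∑ ‖ε_j‖²` for all `ε`, then `∑_j ‖∑_{i ∈ M} c_i a j i‖² ≤ Δ ∑_{i ∈ M} ‖c_i‖²`
(take `ε_j = conj b_j`, `b_j = ∑_i c_i a j i`: `(∑ ‖b_j‖²)² = ‖∑_i c_i ∑_j conj b_j a j i‖² ≤ ∑ ‖c_i‖² Δ ∑ ‖b_j‖²`, Cauchy).
-/

set_option autoImplicit false

open scoped NumberField ComplexConjugate
open NumberField H63.MA H36.QA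

noncomputable section

namespace H57.TLS

/-- the values of a ray class character are at most `1` -/
theorem rc_le_one {F : Type} [Field F] [NumberField F] {𝔣 : Ideal (𝓞 F)} (χ : RC F 𝔣) (I : Ideal (𝓞 F)) :
    ‖χ.χ I‖ ≤ 1 := by
  by_cases h0 : I = ⊥
  · rw [h0, ← Ideal.zero_eq_bot, map_zero, norm_zero]; exact zero_le_one
  · by_cases hc : IsCoprime I 𝔣
    · rw [χ.norm_one I h0 hc]
    · rw [χ.zero_of I hc, norm_zero]; exact zero_le_one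

/-- expansion of the square of a sum over a finite family -/
theorem sq_expand {J S : Type} [Fintype J] (T : Finset S) (ε : J → ℂ) (a : J → S → ℂ) :
    ((∑ s ∈ T, ‖∑ j, ε j * a j s‖ ^ 2 : ℝ) : ℂ) =
      ∑ j, ∑ j', ε j * conj (ε j') * ∑ s ∈ T, a j s * conj (a j' s) := by
  push_cast
  have h1 : ∀ s ∈ T, ((‖∑ j, ε j * a j s‖ : ℂ)) ^ 2 = ∑ j, ∑ j', ε j * conj (ε j') * (a j s * conj (a j' s)) := by
    intro s _
    rw [← Complex.mul_conj', map_sum, Finset.sum_mul_sum]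
    refine Finset.sum_congr rfl fun j _ => Finset.sum_congr rfl fun j' _ => ?_
    rw [map_mul]; ring
  rw [Finset.sum_congr rfl h1, Finset.sum_comm]
  refine Finset.sum_congr rfl fun j _ => ?_
  rw [Finset.sum_comm]
  refine Finset.sum_congr rfl fun j' _ => ?_
  rw [Finset.mul_sum]

/-- the bound of the square of a sum from the bounds of the correlations -/
theorem sq_bound {J S : Type} [Fintype J] (T : Finset S) (ε : J → ℂ) (a : J → S → ℂ) {D E : ℝ} (hE : 0 ≤ E)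
    (hD : ∀ j, ‖∑ s ∈ T, a j s * conj (a j s)‖ ≤ D)
    (hO : ∀ j j', j ≠ j' → ‖∑ s ∈ T, a j s * conj (a j' s)‖ ≤ E) (_hD0 : 0 ≤ D) :
    ∑ s ∈ T, ‖∑ j, ε j * a j s‖ ^ 2 ≤ (D + Fintype.card J * E) * ∑ j, ‖ε j‖ ^ 2 := by
  classical
  have h0 : 0 ≤ ∑ s ∈ T, ‖∑ j, ε j * a j s‖ ^ 2 := Finset.sum_nonneg fun s _ => by positivity
  have h1 : ∑ s ∈ T, ‖∑ j, ε j * a j s‖ ^ 2 = ‖((∑ s ∈ T, ‖∑ j, ε j * a j s‖ ^ 2 : ℝ) : ℂ)‖ := by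
    rw [Complex.norm_real, Real.norm_of_nonneg h0]
  rw [h1, sq_expand]
  have h2 : ∀ j j', ‖ε j * conj (ε j') * ∑ s ∈ T, a j s * conj (a j' s)‖ ≤
      (if j = j' then D * ‖ε j‖ ^ 2 else 0) + E * (‖ε j‖ * ‖ε j'‖) := by
    intro j j'
    rw [norm_mul, norm_mul, RCLike.norm_conj]
    by_cases hj : j = j'
    · subst hj
      rw [if_pos rfl]
      have h3 := mul_le_mul_of_nonneg_left (hD j) (mul_nonneg (norm_nonneg (ε j)) (norm_nonneg (ε j)))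
      have h4 : 0 ≤ E * (‖ε j‖ * ‖ε j‖) := by positivity
      nlinarith
    · rw [if_neg hj, zero_add]
      have h3 := mul_le_mul_of_nonneg_left (hO j j' hj) (mul_nonneg (norm_nonneg (ε j)) (norm_nonneg (ε j')))
      linarith
  calc ‖∑ j, ∑ j', ε j * conj (ε j') * ∑ s ∈ T, a j s * conj (a j' s)‖
      ≤ ∑ j, ∑ j', ((if j = j' then D * ‖ε j‖ ^ 2 else 0) + E * (‖ε j‖ * ‖ε j'‖)) :=
        (norm_sum_le _ _).trans (Finset.sum_le_sum fun j _ => (norm_sum_le _ _).trans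
          (Finset.sum_le_sum fun j' _ => h2 j j'))
    _ = D * ∑ j, ‖ε j‖ ^ 2 + E * (∑ j, ‖ε j‖) ^ 2 := by
        simp_rw [Finset.sum_add_distrib]
        congr 1
        · rw [Finset.mul_sum]
          refine Finset.sum_congr rfl fun j _ => ?_
          rw [Finset.sum_ite_eq Finset.univ j]
          simp
        · rw [sq, Finset.sum_mul_sum, Finset.mul_sum]
          refine Finset.sum_congr rfl fun j _ => ?_
          rw [Finset.mul_sum]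
    _ ≤ (D + Fintype.card J * E) * ∑ j, ‖ε j‖ ^ 2 := by
        have h5 := sq_sum_le_card_mul_sum_sq (s := (Finset.univ : Finset J)) (f := fun j => ‖ε j‖)
        rw [Finset.card_univ] at h5
        have h6 := mul_le_mul_of_nonneg_left h5 hE
        linarith

theorem sieve (n : ℕ) (hn : 0 < n) : ∃ C : ℝ, 1 ≤ C ∧ ∃ A : ℕ, ∀ (F : Type) [Field F] [NumberField F], TC F n →
    ∀ X N : ℝ, 2 ≤ X → 1 ≤ N → C * (dd F * N) ^ A ≤ X → ∀ (J : Type) [Fintype J] (𝔣 : J → Ideal (𝓞 F))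
      (χ : ∀ j, RC F (𝔣 j)), (∀ j, 𝔣 j ≠ ⊥) → (∀ j, (Ideal.absNorm (𝔣 j) : ℝ) ≤ N) →
      (∀ j j', j ≠ j' → PN (prc (χ j) (χ j'))) → ∀ (ε : J → ℂ) (M : Finset (Ideal (𝓞 F))),
        (∀ 𝔪 ∈ M, X < Ideal.absNorm 𝔪 ∧ (Ideal.absNorm 𝔪 : ℝ) ≤ 2 * X) →
        ∑ 𝔪 ∈ M, ‖∑ j, ε j * (χ j).χ 𝔪‖ ^ 2 ≤
          C * (X * Real.log X ^ n + Fintype.card J * (X ^ (1 - 1 / (n : ℝ)) * (dd F * N) ^ A)) * ∑ j, ‖ε j‖ ^ 2 := by
  obtain ⟨C, hC, A, h⟩ := uni n hn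
  refine ⟨C, hC, 2 * A, ?_⟩
  intro F _ _ hF X N hX hN hXN J _ 𝔣 χ hf0 hfN hpn ε M hM
  have hd := one_le_dd F
  have hN2 : (1 : ℝ) ≤ N ^ 2 := one_le_pow₀ hN
  have hle : (dd F * N ^ 2) ^ A ≤ (dd F * N) ^ (2 * A) := by
    rw [pow_mul]
    refine pow_le_pow_left₀ (by positivity) ?_ A
    rw [mul_pow]
    refine mul_le_mul_of_nonneg_right ?_ (by positivity)
    nlinarith
  have hXN' : C * (dd F * N ^ 2) ^ A ≤ X := (mul_le_mul_of_nonneg_left hle (by linarith)).trans hXN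
  obtain ⟨R, Z0, h1, h2, h3⟩ := h F hF X (N ^ 2) hX hN2 hXN'
  have hlog : 0 ≤ Real.log X := Real.log_nonneg (by linarith)
  have hX0 : 0 ≤ X := by linarith
  have h4 := h1 (fun I => ‖∑ j, ε j * (χ j).χ I‖ ^ 2) (fun I => by positivity) M hM
  refine h4.trans ?_
  -- one sum over the pairs
  have h5 : ∑ 𝔫 ∈ IN F Z0, ∑ α ∈ bxs 𝔫 R, ‖∑ j, ε j * (χ j).χ (qt 𝔫 α)‖ ^ 2 =
      ∑ s ∈ (IN F Z0).sigma fun 𝔫 => bxs 𝔫 R, ‖∑ j, ε j * (χ j).χ (qt s.1 s.2)‖ ^ 2 := by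
    rw [Finset.sum_sigma]
  rw [h5]
  have hE0 : 0 ≤ C * (X ^ (1 - 1 / (n : ℝ)) * (dd F * N) ^ (2 * A)) := by positivity
  have hD0 : 0 ≤ C * (X * Real.log X ^ n) := by positivity
  have h6 := sq_bound ((IN F Z0).sigma fun 𝔫 => bxs 𝔫 R) ε (fun j s => (χ j).χ (qt s.1 s.2)) hE0
    (D := C * (X * Real.log X ^ n)) ?_ ?_ hD0
  · refine h6.trans (le_of_eq ?_)
    ring
  · intro j
    refine le_trans ?_ h2
    refine (norm_sum_le _ _).trans ?_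
    rw [Finset.sum_sigma]
    refine Finset.sum_le_sum fun 𝔫 _ => ?_
    rw [← nsmul_one, ← Finset.sum_const]
    refine Finset.sum_le_sum fun α _ => ?_
    rw [norm_mul, RCLike.norm_conj]
    have := rc_le_one (χ j) (qt 𝔫 α)
    nlinarith [norm_nonneg ((χ j).χ (qt 𝔫 α))]
  · intro j j' hj
    have h7 : ∑ s ∈ (IN F Z0).sigma fun 𝔫 => bxs 𝔫 R, (χ j).χ (qt s.1 s.2) * conj ((χ j').χ (qt s.1 s.2)) =
        ∑ 𝔫 ∈ IN F Z0, ∑ α ∈ bxs 𝔫 R, (prc (χ j) (χ j')).χ (qt 𝔫 α) := by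
      rw [Finset.sum_sigma]
      rfl
    rw [h7]
    refine (h3 (𝔣 j * 𝔣 j') (mul_ne_zero (hf0 j) (hf0 j')) ?_ (prc (χ j) (χ j')) (hpn j j' hj)).trans ?_
    · rw [map_mul, Nat.cast_mul, sq]
      exact mul_le_mul (hfN j) (hfN j') (Nat.cast_nonneg _) (by linarith)
    · refine mul_le_mul_of_nonneg_left ?_ (by linarith)
      exact mul_le_mul_of_nonneg_left hle (by positivity)

theorem dual {I J : Type} [Fintype J] (M : Finset I) (a : J → I → ℂ) {Δ : ℝ} (hΔ : 0 ≤ Δ)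
    (h : ∀ ε : J → ℂ, ∑ i ∈ M, ‖∑ j, ε j * a j i‖ ^ 2 ≤ Δ * ∑ j, ‖ε j‖ ^ 2) (c : I → ℂ) :
    ∑ j, ‖∑ i ∈ M, c i * a j i‖ ^ 2 ≤ Δ * ∑ i ∈ M, ‖c i‖ ^ 2 := by
  set b : J → ℂ := fun j => ∑ i ∈ M, c i * a j i with hb
  have hS0 : 0 ≤ ∑ j, ‖b j‖ ^ 2 := Finset.sum_nonneg fun j _ => by positivity
  have hc0 : 0 ≤ ∑ i ∈ M, ‖c i‖ ^ 2 := Finset.sum_nonneg fun j _ => by positivity
  rcases hS0.eq_or_lt with h0 | hpos
  · rw [← h0]; positivity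
  have h1 : ((∑ j, ‖b j‖ ^ 2 : ℝ) : ℂ) = ∑ i ∈ M, c i * ∑ j, conj (b j) * a j i := by
    push_cast
    have h2 : ∀ j, ((‖b j‖ : ℂ)) ^ 2 = ∑ i ∈ M, c i * (conj (b j) * a j i) := by
      intro j
      rw [← Complex.conj_mul']
      rw [show conj (b j) * b j = conj (b j) * ∑ i ∈ M, c i * a j i from rfl, Finset.mul_sum]
      refine Finset.sum_congr rfl fun i _ => ?_
      ring
    simp_rw [h2]
    rw [Finset.sum_comm]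
    refine Finset.sum_congr rfl fun i _ => ?_
    rw [Finset.mul_sum]
  have h3 : ∑ j, ‖b j‖ ^ 2 ≤ ∑ i ∈ M, ‖c i‖ * ‖∑ j, conj (b j) * a j i‖ := by
    calc ∑ j, ‖b j‖ ^ 2 = ‖((∑ j, ‖b j‖ ^ 2 : ℝ) : ℂ)‖ := by rw [Complex.norm_real, Real.norm_of_nonneg hS0]
      _ ≤ _ := by
        rw [h1]
        refine (norm_sum_le _ _).trans (le_of_eq ?_)
        exact Finset.sum_congr rfl fun i _ => norm_mul _ _
  have h4 : (∑ i ∈ M, ‖c i‖ * ‖∑ j, conj (b j) * a j i‖) ^ 2 ≤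
      (∑ i ∈ M, ‖c i‖ ^ 2) * ∑ i ∈ M, ‖∑ j, conj (b j) * a j i‖ ^ 2 := Finset.sum_mul_sq_le_sq_mul_sq _ _ _
  have h5 := h fun j => conj (b j)
  simp_rw [RCLike.norm_conj] at h5
  have h6 : (∑ j, ‖b j‖ ^ 2) ^ 2 ≤ (∑ i ∈ M, ‖c i‖ ^ 2) * (Δ * ∑ j, ‖b j‖ ^ 2) :=
    (pow_le_pow_left₀ hS0 h3 2).trans (h4.trans (mul_le_mul_of_nonneg_left h5 hc0))
  have h7 : (∑ j, ‖b j‖ ^ 2) * (∑ j, ‖b j‖ ^ 2) ≤ (Δ * ∑ i ∈ M, ‖c i‖ ^ 2) * (∑ j, ‖b j‖ ^ 2) := by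
    nlinarith
  exact le_of_mul_le_mul_right h7 hpos

end H57.TLS
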