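import Pool.Agent.H57.TLS.Sve

/-!
[H57 TLS AMP]  The 2k-th power of a short sum over primes (120-180 lines).

`C₁, A₁` from `sieve`. `k` is a natural number with `k ≥ n (B + 3 A₁ B + 1)` and `2 ^ k ≥ C₁`, `k ≥ 1 + 2 A₁ B + ..` such that for `Z ≥ 2`:
`C₁ (dd N)^A₁ ≤ Z^k` and `#J Z^(-k/n) (dd N)^A₁ ≤ 1` (`dd, N, #J ≤ Z^B`). For `t : Fin k → Q` put `I_t = ∏ (t i)` (ideal),
`Z^k < N(I_t) ≤ (2Z)^k`. `S_j = ∑_{v ∈ Q} y v χ_j(v)`, `S_j^k = ∑_t (∏ y(t i)) χ_j(I_t) = ∑_I c(I) χ_j(I)`,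
`c(I) = ∑_{t : I_t = I} ∏ y(t i)`, `|c(I)| ≤ k!` (the multiset of primes is determined by `I`, and a multiset of size `k` has at most
`k!` orderings), `∑_I |c(I)| ≤ (#Q)^k`, so `∑_I |c(I)|² ≤ k! (#Q)^k`. Split the `I` into the `k` dyadic sets `M_i`:
`2^i Z^k < N(I) ≤ 2^(i+1) Z^k`, `i < k`; `‖S_j‖^(2k) = ‖∑_i ∑_{I ∈ M_i}‖² ≤ k ∑_i ‖∑_{I ∈ M_i} c χ_j‖²`; `sieve` with `X = 2^i Z^k` and `dual`:
`∑_j ‖∑_{I ∈ M_i} c χ_j‖² ≤ Δ k! (#Q)^k`, `Δ ≤ C (2Z)^k (k log (2Z))^n * 2`. So `∑_j ‖S_j‖^(2k) ≤ C' Z^(2k) (log Z)^n`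
(`#Q ≤ b Z`). Hölder: `∑_j ‖S_j‖ ≤ (#J)^(1 - 1/(2k)) (∑_j ‖S_j‖^(2k))^(1/(2k))` (`Real.inner_le_Lp_mul_Lq` or
`inner_le_nnorm_mul_nnorm`, or `Real.pow_arith_mean_le_arith_mean_pow`).
-/

set_option autoImplicit false

open scoped NumberField
open NumberField H63.MA H36.QA

noncomputable section

namespace H57.TLS

/-- the product ideal of a tuple of primes -/
def ampI {F : Type} [Field F] [NumberField F] {k : ℕ} (t : Fin k → Pl F) : Ideal (𝓞 F) :=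
  ∏ i, (t i).asIdeal

theorem amp_count {F : Type} [Field F] [NumberField F] (k : ℕ) (T : Finset (Fin k → Pl F))
    (I : Ideal (𝓞 F)) [DecidableEq (Ideal (𝓞 F))] :
    (T.filter fun t => ampI t = I).card ≤ k ^ k := by
  classical
  rcases (T.filter fun t => ampI t = I).eq_empty_or_nonempty with h | ⟨t0, h0⟩
  · rw [h, Finset.card_empty]
    exact Nat.zero_le _
  · have h1 : (T.filter fun t => ampI t = I) ⊆
        Fintype.piFinset (fun _ : Fin k => Finset.univ.image t0) := by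
      intro t ht
      rw [Fintype.mem_piFinset]
      intro i
      have h2 := (Finset.mem_filter.1 ht).2
      have h3 := (Finset.mem_filter.1 h0).2
      have h4 : (t i).asIdeal ∣ ∏ j, (t0 j).asIdeal := by
        have h5 : (t i).asIdeal ∣ ampI t := Finset.dvd_prod_of_mem _ (Finset.mem_univ i)
        rw [h2, ← h3] at h5
        exact h5
      obtain ⟨j, -, hj⟩ := (Prime.dvd_finsetProd_iff (t i).prime _).1 h4
      have h6 := ((t i).prime.dvd_prime_iff_associated (t0 j).prime).1 hj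
      rw [associated_iff_eq] at h6
      exact Finset.mem_image.2 ⟨j, Finset.mem_univ j,
        (IsDedekindDomain.HeightOneSpectrum.ext h6).symm⟩
    refine (Finset.card_le_card h1).trans ?_
    rw [Fintype.card_piFinset_const]
    refine Nat.pow_le_pow_left ?_ k
    refine Finset.card_image_le.trans ?_
    rw [Finset.card_univ, Fintype.card_fin]

/-- the coefficients of the `k`-th power -/
def ampc {F : Type} [Field F] [NumberField F] (k : ℕ) (Q : Finset (Pl F)) (y : Pl F → ℂ)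
    (I : Ideal (𝓞 F)) : ℂ :=
  open Classical in
  ∑ t ∈ (Fintype.piFinset (fun _ : Fin k => Q)).filter (fun t => ampI t = I), ∏ i, y (t i)

/-- the support of the coefficients -/
def ampM {F : Type} [Field F] [NumberField F] (k : ℕ) (Q : Finset (Pl F)) :
    Finset (Ideal (𝓞 F)) :=
  open Classical in (Fintype.piFinset (fun _ : Fin k => Q)).image ampI

theorem amp_pow {F : Type} [Field F] [NumberField F] (k : ℕ) (Q : Finset (Pl F)) (y : Pl F → ℂ)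
    (χ : Ideal (𝓞 F) →*₀ ℂ) :
    (∑ v ∈ Q, y v * χ v.asIdeal) ^ k = ∑ I ∈ ampM k Q, ampc k Q y I * χ I := by
  classical
  have h1 : (∑ v ∈ Q, y v * χ v.asIdeal) ^ k = ∏ _i : Fin k, ∑ v ∈ Q, y v * χ v.asIdeal := by
    rw [Finset.prod_const, Finset.card_univ, Fintype.card_fin]
  rw [h1, Finset.prod_univ_sum]
  have h2 : ∀ t : Fin k → Pl F, ∏ i, (y (t i) * χ (t i).asIdeal) = (∏ i, y (t i)) * χ (ampI t) := by
    intro t
    rw [Finset.prod_mul_distrib, ampI, map_prod]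
  simp only [h2]
  rw [← Finset.sum_fiberwise_of_maps_to (s := Fintype.piFinset (fun _ : Fin k => Q))
    (t := ampM k Q) (g := ampI)]
  · refine Finset.sum_congr rfl fun I _ => ?_
    rw [ampc, Finset.sum_mul]
    refine Finset.sum_congr ?_ fun t ht => ?_
    · ext t
      simp
    · rw [(Finset.mem_filter.1 ht).2]
  · intro t ht
    rw [ampM]
    exact Finset.mem_image_of_mem _ ht

theorem amp_norm {F : Type} [Field F] [NumberField F] (k : ℕ) (hk : 1 ≤ k) (Q : Finset (Pl F))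
    (Z : ℝ) (hZ : 0 < Z) (hQ : ∀ v ∈ Q, Z < nm v ∧ (nm v : ℝ) ≤ 2 * Z) :
    ∀ I ∈ ampM k Q, Z ^ k < (Ideal.absNorm I : ℝ) ∧ (Ideal.absNorm I : ℝ) ≤ 2 ^ k * Z ^ k := by
  classical
  intro I hI
  rw [ampM] at hI
  obtain ⟨t, ht, rfl⟩ := Finset.mem_image.1 hI
  rw [Fintype.mem_piFinset] at ht
  have h1 : (Ideal.absNorm (ampI t) : ℝ) = ∏ i, (nm (t i) : ℝ) := by
    rw [ampI, map_prod]
    push_cast
    rfl
  rw [h1]
  constructor
  · have h2 : ∏ _i : Fin k, Z < ∏ i, (nm (t i) : ℝ) := by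
      apply Finset.prod_lt_prod_of_nonempty
      · intro i _
        exact hZ
      · intro i _
        exact (hQ _ (ht i)).1
      · exact ⟨⟨0, hk⟩, Finset.mem_univ _⟩
    rwa [Finset.prod_const, Finset.card_univ, Fintype.card_fin] at h2
  · have h2 : ∏ i, (nm (t i) : ℝ) ≤ ∏ _i : Fin k, (2 * Z) := by
      apply Finset.prod_le_prod
      · intro i _
        positivity
      · intro i _
        exact (hQ _ (ht i)).2
    rwa [Finset.prod_const, Finset.card_univ, Fintype.card_fin, mul_pow] at h2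

theorem amp_c2 {F : Type} [Field F] [NumberField F] (k : ℕ) (Q : Finset (Pl F)) (y : Pl F → ℂ)
    (hy : ∀ v, ‖y v‖ ≤ 1) :
    ∑ I ∈ ampM k Q, ‖ampc k Q y I‖ ^ 2 ≤ (k : ℝ) ^ k * (Q.card : ℝ) ^ k := by
  classical
  have h1 : ∀ I : Ideal (𝓞 F), ‖ampc k Q y I‖ ≤
      (((Fintype.piFinset (fun _ : Fin k => Q)).filter (fun t => ampI t = I)).card : ℝ) := by
    intro I
    have h2 : ∀ t : Fin k → Pl F, ‖∏ i, y (t i)‖ ≤ 1 := by
      intro t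
      rw [norm_prod]
      exact Finset.prod_le_one (fun i _ => norm_nonneg _) (fun i _ => hy _)
    rw [ampc]
    refine (norm_sum_le _ _).trans ?_
    refine (Finset.sum_le_sum fun t _ => h2 t).trans ?_
    rw [Finset.sum_const, nsmul_eq_mul, mul_one]
  have h3 : ∀ I : Ideal (𝓞 F), ‖ampc k Q y I‖ ^ 2 ≤ (k : ℝ) ^ k *
      (((Fintype.piFinset (fun _ : Fin k => Q)).filter (fun t => ampI t = I)).card : ℝ) := by
    intro I
    have h4 := h1 I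
    have h5 : ‖ampc k Q y I‖ ≤ (k : ℝ) ^ k := by
      refine h4.trans ?_
      have h6 := amp_count k (Fintype.piFinset (fun _ : Fin k => Q)) I
      exact_mod_cast h6
    rw [pow_two]
    exact mul_le_mul h5 h4 (norm_nonneg _) (by positivity)
  refine (Finset.sum_le_sum fun I _ => h3 I).trans ?_
  rw [← Finset.mul_sum]
  refine mul_le_mul_of_nonneg_left ?_ (by positivity)
  have h7 : (∑ I ∈ ampM k Q,
      ((Fintype.piFinset (fun _ : Fin k => Q)).filter (fun t => ampI t = I)).card) =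
      (Fintype.piFinset (fun _ : Fin k => Q)).card := by
    rw [← Finset.card_eq_sum_card_fiberwise]
    intro t ht
    rw [ampM]
    exact Finset.mem_coe.2 (Finset.mem_image_of_mem _ (Finset.mem_coe.1 ht))
  rw [Fintype.card_piFinset_const] at h7
  exact_mod_cast h7.le

theorem amp_lev (k : ℕ) (W r : ℝ) (h1 : W < r) (h2 : r ≤ 2 ^ k * W) :
    ∃ i, i < k ∧ 2 ^ i * W < r ∧ r ≤ 2 * (2 ^ i * W) := by
  classical
  have hex : ∃ m, r ≤ 2 ^ m * W := ⟨k, h2⟩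
  have hm := Nat.find_spec hex
  have hmin : ∀ m < Nat.find hex, ¬ r ≤ 2 ^ m * W := fun m hm => Nat.find_min hex hm
  have hle : Nat.find hex ≤ k := Nat.find_min' hex h2
  obtain ⟨m, hmm⟩ : ∃ m, m = Nat.find hex := ⟨_, rfl⟩
  rw [← hmm] at hm hmin hle
  rcases m with _ | m
  · exfalso
    rw [pow_zero, one_mul] at hm
    linarith
  · refine ⟨m, by omega, ?_, ?_⟩
    · exact not_le.1 (hmin m (by omega))
    · rw [pow_succ] at hm
      linarith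


theorem inner_pow_le {J : Type} [Fintype J] (s : J → ℝ) (hs : ∀ j, 0 ≤ s j) (m : ℕ) :
    (∑ j, s j) ^ (m + 1) ≤ (Fintype.card J : ℝ) ^ m * ∑ j, s j ^ (m + 1) := by
  rcases isEmpty_or_nonempty J with h | h
  · simp
  · have h1 := pow_sum_div_card_le_sum_pow (s := (Finset.univ : Finset J)) (f := s)
      (fun j _ => hs j) m
    have h2 : (0 : ℝ) < (Fintype.card J : ℝ) ^ m := by
      have : 0 < Fintype.card J := Fintype.card_pos
      positivity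
    rw [Finset.card_univ, div_le_iff₀ h2] at h1
    rw [mul_comm]
    exact h1

/-- Hölder -/
theorem amp_holder {J : Type} [Fintype J] (s : J → ℝ) (hs : ∀ j, 0 ≤ s j) (k : ℕ) (hk : 1 ≤ k)
    (W : ℝ) (hW : 0 ≤ W) (h : ∑ j, s j ^ (2 * k) ≤ W ^ (2 * k)) :
    ∑ j, s j ≤ (Fintype.card J : ℝ) ^ (1 - 1 / (2 * k : ℝ)) * W := by
  obtain ⟨m, hm⟩ : ∃ m, 2 * k = m + 1 := ⟨2 * k - 1, by omega⟩
  have hkr : (2 * k : ℝ) = (m : ℝ) + 1 := by exact_mod_cast hm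
  have hJ0 : (0 : ℝ) ≤ Fintype.card J := Nat.cast_nonneg _
  have h1 := inner_pow_le s hs m
  have h2 : (((Fintype.card J : ℝ) ^ (1 - 1 / (2 * k : ℝ))) * W) ^ (m + 1) =
      (Fintype.card J : ℝ) ^ m * W ^ (m + 1) := by
    rw [mul_pow, ← Real.rpow_natCast ((Fintype.card J : ℝ) ^ (1 - 1 / (2 * k : ℝ))),
      ← Real.rpow_mul hJ0]
    congr 1
    rw [← Real.rpow_natCast (Fintype.card J : ℝ) m]
    congr 1
    push_cast
    rw [hkr]
    have : (m : ℝ) + 1 ≠ 0 := by positivity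
    field_simp
    ring
  rw [hm] at h
  have h3 : (∑ j, s j) ^ (m + 1) ≤ (((Fintype.card J : ℝ) ^ (1 - 1 / (2 * k : ℝ))) * W) ^ (m + 1) := by
    rw [h2]
    exact h1.trans (mul_le_mul_of_nonneg_left h (by positivity))
  have h4 : 0 ≤ ∑ j, s j := Finset.sum_nonneg fun j _ => hs j
  exact (pow_le_pow_iff_left₀ h4 (by positivity) (by omega)).1 h3


theorem amp_arith (n B A₁ c1 : ℕ) (C₁ : ℝ) (hc1 : C₁ ≤ 2 ^ c1) (k : ℕ) (hn : 0 < n)
    (hk : k = n * (B + 2 * B * A₁) + 2 * B * A₁ + c1 + 1) (Z : ℝ) (hZ : 2 ≤ Z) (d NJ X : ℝ)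
    (hd0 : 1 ≤ d) (hd : d ≤ Z ^ B) (hNJ : NJ ≤ Z ^ B) (hX : Z ^ k ≤ X) :
    C₁ * (d * Z ^ B) ^ A₁ ≤ X ∧ NJ * (X ^ (1 - 1 / (n : ℝ)) * (d * Z ^ B) ^ A₁) ≤ X := by
  have hZ1 : 1 ≤ Z := by linarith
  have hZ0 : 0 < Z := by linarith
  have hd2 : (d * Z ^ B) ^ A₁ ≤ Z ^ (2 * B * A₁) := by
    have h1 : d * Z ^ B ≤ Z ^ B * Z ^ B := mul_le_mul_of_nonneg_right hd (by positivity)
    have h2 : (d * Z ^ B) ^ A₁ ≤ (Z ^ B * Z ^ B) ^ A₁ := pow_le_pow_left₀ (by positivity) h1 _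
    have h3 : (Z ^ B * Z ^ B) ^ A₁ = Z ^ (2 * B * A₁) := by
      rw [← pow_add, ← pow_mul]
      congr 1
      ring
    rwa [h3] at h2
  have hX0 : 0 < X := lt_of_lt_of_le (by positivity) hX
  constructor
  · have h1 : C₁ * (d * Z ^ B) ^ A₁ ≤ Z ^ c1 * Z ^ (2 * B * A₁) := by
      have h2 : (2 : ℝ) ^ c1 ≤ Z ^ c1 := pow_le_pow_left₀ (by norm_num) hZ _
      exact mul_le_mul (hc1.trans h2) hd2 (by positivity) (by positivity)
    refine h1.trans (le_trans ?_ hX)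
    rw [← pow_add]
    exact pow_le_pow_right₀ hZ1 (by rw [hk]; omega)
  · have h1 : NJ * (d * Z ^ B) ^ A₁ ≤ Z ^ (B + 2 * B * A₁) := by
      rw [pow_add]
      exact mul_le_mul hNJ hd2 (by positivity) (by positivity)
    have h2 : (Z ^ (B + 2 * B * A₁)) ^ n ≤ X := by
      refine le_trans ?_ hX
      rw [← pow_mul]
      refine pow_le_pow_right₀ hZ1 ?_
      rw [hk, mul_comm]
      omega
    have h3 : Z ^ (B + 2 * B * A₁) ≤ X ^ (1 / (n : ℝ)) := by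
      have h4 := Real.rpow_le_rpow (z := 1 / (n : ℝ)) (by positivity) h2 (by positivity)
      rwa [one_div, Real.pow_rpow_inv_natCast (by positivity) (by omega), ← one_div] at h4
    have h5 : X ^ (1 - 1 / (n : ℝ)) * X ^ (1 / (n : ℝ)) = X := by
      rw [← Real.rpow_add hX0]
      rw [sub_add_cancel, Real.rpow_one]
    calc NJ * (X ^ (1 - 1 / (n : ℝ)) * (d * Z ^ B) ^ A₁)
        = X ^ (1 - 1 / (n : ℝ)) * (NJ * (d * Z ^ B) ^ A₁) := by ring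
      _ ≤ X ^ (1 - 1 / (n : ℝ)) * X ^ (1 / (n : ℝ)) :=
          mul_le_mul_of_nonneg_left (h1.trans h3) (by positivity)
      _ = X := h5

theorem amp_delta (n k : ℕ) (hk : 1 ≤ k) (C₁ : ℝ) (hC₁ : 1 ≤ C₁) (Z X E : ℝ) (hZ : 2 ≤ Z)
    (hX1 : Z ^ k ≤ X) (hX2 : X ≤ 2 ^ k * Z ^ k) (hE : E ≤ X) :
    C₁ * (X * Real.log X ^ n + E) ≤
      C₁ * (2 * (2 ^ k * Z ^ k * (2 * k * Real.log Z) ^ n)) := by
  have hZ1 : 1 ≤ Z := by linarith
  have hZ0 : 0 < Z := by linarith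
  have hX0 : 0 < X := lt_of_lt_of_le (by positivity) hX1
  have hX1' : 1 ≤ X := le_trans (one_le_pow₀ hZ1) hX1
  have hl2 : Real.log 2 ≤ Real.log Z := Real.log_le_log (by norm_num) hZ
  have hl2' : (1 : ℝ) / 2 ≤ Real.log 2 := by
    have := Real.log_two_gt_d9
    linarith
  have hk1 : (1 : ℝ) ≤ k := by exact_mod_cast hk
  have hlog : Real.log X ≤ 2 * k * Real.log Z := by
    have h1 := Real.log_le_log hX0 hX2
    rw [← mul_pow, Real.log_pow, Real.log_mul (by norm_num) (by positivity)] at h1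
    have h2 : (k : ℝ) * (Real.log 2 + Real.log Z) ≤ k * (Real.log Z + Real.log Z) := by
      apply mul_le_mul_of_nonneg_left _ (by positivity)
      linarith
    linarith
  have h1L : 1 ≤ 2 * k * Real.log Z := by
    have h1 : (1 : ℝ) / 2 ≤ Real.log Z := by linarith
    have h2 : (1 : ℝ) * (1 / 2) ≤ k * Real.log Z := mul_le_mul hk1 h1 (by norm_num) (by positivity)
    linarith
  have hlog0 : 0 ≤ Real.log X := Real.log_nonneg hX1'
  have h3 : Real.log X ^ n ≤ (2 * k * Real.log Z) ^ n := pow_le_pow_left₀ hlog0 hlog _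
  have h4 : X * Real.log X ^ n ≤ 2 ^ k * Z ^ k * (2 * k * Real.log Z) ^ n :=
    mul_le_mul hX2 h3 (by positivity) (by positivity)
  have h5 : E ≤ 2 ^ k * Z ^ k * (2 * k * Real.log Z) ^ n := by
    have h6 : (1 : ℝ) ≤ (2 * k * Real.log Z) ^ n := one_le_pow₀ h1L
    calc E ≤ X := hE
      _ ≤ 2 ^ k * Z ^ k := hX2
      _ = 2 ^ k * Z ^ k * 1 := (mul_one _).symm
      _ ≤ _ := mul_le_mul_of_nonneg_left h6 (by positivity)
  apply mul_le_mul_of_nonneg_left _ (by linarith)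
  linarith


/-- the sum over `j` of the `2k`-th powers, given the sieve for the dyadic parts -/
theorem amp_sum {F : Type} [Field F] [NumberField F] (k : ℕ) (hk : 1 ≤ k) (Z : ℝ) (hZ : 2 ≤ Z)
    (J : Type) [Fintype J] (χ : J → (Ideal (𝓞 F) →*₀ ℂ)) (Q : Finset (Pl F))
    (hQ : ∀ v ∈ Q, Z < nm v ∧ (nm v : ℝ) ≤ 2 * Z) (y : Pl F → ℂ) (hy : ∀ v, ‖y v‖ ≤ 1)
    (Δ : ℝ) (hΔ : 0 ≤ Δ)
    (hD : ∀ i < k, ∀ M : Finset (Ideal (𝓞 F)),
      (∀ 𝔪 ∈ M, 2 ^ i * Z ^ k < Ideal.absNorm 𝔪 ∧ (Ideal.absNorm 𝔪 : ℝ) ≤ 2 * (2 ^ i * Z ^ k)) →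
      ∀ c : Ideal (𝓞 F) → ℂ, ∑ j, ‖∑ I ∈ M, c I * χ j I‖ ^ 2 ≤ Δ * ∑ I ∈ M, ‖c I‖ ^ 2) :
    ∑ j, ‖∑ v ∈ Q, y v * χ j v.asIdeal‖ ^ (2 * k) ≤
      k * (Δ * ((k : ℝ) ^ k * (Q.card : ℝ) ^ k)) := by
  classical
  have hnorm := amp_norm k hk Q Z (by linarith) hQ
  have hlev : ∀ I : Ideal (𝓞 F), ∃ i, I ∈ ampM k Q → (i < k ∧
      2 ^ i * Z ^ k < (Ideal.absNorm I : ℝ) ∧ (Ideal.absNorm I : ℝ) ≤ 2 * (2 ^ i * Z ^ k)) := by
    intro I
    by_cases hI : I ∈ ampM k Q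
    · obtain ⟨i, h1, h2, h3⟩ := amp_lev k (Z ^ k) (Ideal.absNorm I) (hnorm I hI).1 (hnorm I hI).2
      exact ⟨i, fun _ => ⟨h1, h2, h3⟩⟩
    · exact ⟨0, fun h => absurd h hI⟩
  choose lev hlev using hlev
  have hsplit : ∀ g : Ideal (𝓞 F) → ℂ, ∑ i ∈ Finset.range k,
      ∑ I ∈ (ampM k Q).filter (fun I => lev I = i), g I = ∑ I ∈ ampM k Q, g I := by
    intro g
    exact Finset.sum_fiberwise_of_maps_to (fun I hI => Finset.mem_range.2 (hlev I hI).1) g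
  have hsplit' : ∀ g : Ideal (𝓞 F) → ℝ, ∑ i ∈ Finset.range k,
      ∑ I ∈ (ampM k Q).filter (fun I => lev I = i), g I = ∑ I ∈ ampM k Q, g I := by
    intro g
    exact Finset.sum_fiberwise_of_maps_to (fun I hI => Finset.mem_range.2 (hlev I hI).1) g
  have h1 : ∀ j, ‖∑ v ∈ Q, y v * χ j v.asIdeal‖ ^ (2 * k) ≤ k * ∑ i ∈ Finset.range k,
      ‖∑ I ∈ (ampM k Q).filter (fun I => lev I = i), ampc k Q y I * χ j I‖ ^ 2 := by
    intro j
    have h2 : ‖∑ v ∈ Q, y v * χ j v.asIdeal‖ ^ (2 * k) =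
        ‖∑ i ∈ Finset.range k, ∑ I ∈ (ampM k Q).filter (fun I => lev I = i),
          ampc k Q y I * χ j I‖ ^ 2 := by
      rw [hsplit, ← amp_pow, norm_pow, ← pow_mul, mul_comm 2 k]
    rw [h2]
    have h3 : ‖∑ i ∈ Finset.range k, ∑ I ∈ (ampM k Q).filter (fun I => lev I = i),
          ampc k Q y I * χ j I‖ ≤ ∑ i ∈ Finset.range k,
        ‖∑ I ∈ (ampM k Q).filter (fun I => lev I = i), ampc k Q y I * χ j I‖ := norm_sum_le _ _
    have h4 := sq_sum_le_card_mul_sum_sq (s := Finset.range k) (f := fun i =>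
      ‖∑ I ∈ (ampM k Q).filter (fun I => lev I = i), ampc k Q y I * χ j I‖)
    rw [Finset.card_range] at h4
    exact (pow_le_pow_left₀ (norm_nonneg _) h3 2).trans h4
  refine (Finset.sum_le_sum fun j _ => h1 j).trans ?_
  rw [← Finset.mul_sum, Finset.sum_comm]
  refine mul_le_mul_of_nonneg_left ?_ (Nat.cast_nonneg k)
  have h5 : ∀ i ∈ Finset.range k, ∑ j,
      ‖∑ I ∈ (ampM k Q).filter (fun I => lev I = i), ampc k Q y I * χ j I‖ ^ 2 ≤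
      Δ * ∑ I ∈ (ampM k Q).filter (fun I => lev I = i), ‖ampc k Q y I‖ ^ 2 := by
    intro i hi
    refine hD i (Finset.mem_range.1 hi) _ ?_ _
    intro I hI
    obtain ⟨h6, h7⟩ := Finset.mem_filter.1 hI
    have h8 := (hlev I h6).2
    rw [h7] at h8
    exact h8
  refine (Finset.sum_le_sum h5).trans ?_
  rw [← Finset.mul_sum, hsplit']
  exact mul_le_mul_of_nonneg_left (amp_c2 k Q y hy) hΔ

theorem amp (n : ℕ) (hn : 0 < n) (B : ℕ) (b : ℝ) : ∃ k : ℕ, 1 ≤ k ∧ ∃ C : ℝ, 1 ≤ C ∧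
    ∀ (F : Type) [Field F] [NumberField F], TC F n → ∀ Z : ℝ, 2 ≤ Z → dd F ≤ Z ^ B →
      ∀ (J : Type) [Fintype J] (𝔣 : J → Ideal (𝓞 F)) (χ : ∀ j, RC F (𝔣 j)), (Fintype.card J : ℝ) ≤ Z ^ B → (∀ j, 𝔣 j ≠ ⊥) →
      (∀ j, (Ideal.absNorm (𝔣 j) : ℝ) ≤ Z ^ B) → (∀ j j', j ≠ j' → PN (prc (χ j) (χ j'))) →
      ∀ (Q : Finset (Pl F)), (∀ v ∈ Q, Z < nm v ∧ (nm v : ℝ) ≤ 2 * Z) → (Q.card : ℝ) ≤ b * Z →
      ∀ y : Pl F → ℂ, (∀ v, ‖y v‖ ≤ 1) →
        ∑ j, ‖∑ v ∈ Q, y v * (χ j).χ v.asIdeal‖ ≤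
          C * ((Fintype.card J : ℝ) ^ (1 - 1 / (2 * k : ℝ)) * (Z * Real.log Z ^ n)) := by
  obtain ⟨C₁, hC₁, A₁, hs⟩ := sieve n hn
  obtain ⟨c1, hc1⟩ := pow_unbounded_of_one_lt C₁ (one_lt_two : (1 : ℝ) < 2)
  obtain ⟨k, hkdef⟩ : ∃ k, k = n * (B + 2 * B * A₁) + 2 * B * A₁ + c1 + 1 := ⟨_, rfl⟩
  have hk : 1 ≤ k := by omega
  obtain ⟨b', hb'⟩ : ∃ b', b' = max b 1 := ⟨_, rfl⟩
  have hb1 : 1 ≤ b' := hb' ▸ le_max_right _ _
  have hbb : b ≤ b' := hb' ▸ le_max_left _ _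
  obtain ⟨C', hC'⟩ : ∃ C' : ℝ, C' = k * (C₁ * (2 * (2 ^ k * (2 * k) ^ n)) * ((k : ℝ) ^ k * b' ^ k)) :=
    ⟨_, rfl⟩
  have hkr : (1 : ℝ) ≤ k := by exact_mod_cast hk
  have hC'1 : 1 ≤ C' := by
    rw [hC']
    have e1 : (1 : ℝ) ≤ 2 ^ k := one_le_pow₀ (by norm_num)
    have e2 : (1 : ℝ) ≤ (2 * k) ^ n := one_le_pow₀ (by linarith)
    have e3 : (1 : ℝ) ≤ (k : ℝ) ^ k := one_le_pow₀ hkr
    have e4 : (1 : ℝ) ≤ b' ^ k := one_le_pow₀ hb1
    have e5 : (1 : ℝ) ≤ 2 * (2 ^ k * (2 * k) ^ n) :=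
      one_le_mul_of_one_le_of_one_le (by norm_num) (one_le_mul_of_one_le_of_one_le e1 e2)
    exact one_le_mul_of_one_le_of_one_le hkr (one_le_mul_of_one_le_of_one_le
      (one_le_mul_of_one_le_of_one_le hC₁ e5) (one_le_mul_of_one_le_of_one_le e3 e4))
  refine ⟨k, hk, C' * 2 ^ n, one_le_mul_of_one_le_of_one_le hC'1 (one_le_pow₀ (by norm_num)), ?_⟩
  intro F _ _ hTC Z hZ hdd J _ 𝔣 χ hJ hf0 hfN hpn Q hQ hQc y hy
  have hZ1 : 1 ≤ Z := by linarith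
  have hZ0 : 0 < Z := by linarith
  have hN1 : 1 ≤ Z ^ B := one_le_pow₀ hZ1
  have hd1 : 1 ≤ dd F := one_le_dd F
  have hL : (1 : ℝ) / 2 ≤ Real.log Z := by
    have e1 : Real.log 2 ≤ Real.log Z := Real.log_le_log (by norm_num) hZ
    have e2 := Real.log_two_gt_d9
    linarith
  obtain ⟨Δ, hΔdef⟩ : ∃ Δ : ℝ, Δ = C₁ * (2 * (2 ^ k * Z ^ k * (2 * k * Real.log Z) ^ n)) :=
    ⟨_, rfl⟩
  have hΔ0 : 0 ≤ Δ := by
    rw [hΔdef]
    have e1 : 0 ≤ Real.log Z := by linarith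
    positivity
  have hD : ∀ i < k, ∀ M : Finset (Ideal (𝓞 F)),
      (∀ 𝔪 ∈ M, 2 ^ i * Z ^ k < Ideal.absNorm 𝔪 ∧ (Ideal.absNorm 𝔪 : ℝ) ≤ 2 * (2 ^ i * Z ^ k)) →
      ∀ c : Ideal (𝓞 F) → ℂ, ∑ j, ‖∑ I ∈ M, c I * (χ j).χ I‖ ^ 2 ≤ Δ * ∑ I ∈ M, ‖c I‖ ^ 2 := by
    intro i hi M hM c
    have e1 : (1 : ℝ) ≤ 2 ^ i := one_le_pow₀ (by norm_num)
    have e2 : (2 : ℝ) ^ i ≤ 2 ^ k := pow_le_pow_right₀ (by norm_num) hi.le
    have e3 : Z ^ k ≤ 2 ^ i * Z ^ k := by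
      nlinarith [pow_pos hZ0 k]
    have e4 : 2 ^ i * Z ^ k ≤ 2 ^ k * Z ^ k := mul_le_mul_of_nonneg_right e2 (by positivity)
    have e5 : 2 ≤ 2 ^ i * Z ^ k := by
      refine le_trans ?_ e3
      calc (2 : ℝ) ≤ Z := hZ
        _ = Z ^ 1 := (pow_one Z).symm
        _ ≤ Z ^ k := pow_le_pow_right₀ hZ1 hk
    obtain ⟨e6, e7⟩ := amp_arith n B A₁ c1 C₁ hc1.le k hn hkdef Z hZ (dd F)
      (Fintype.card J : ℝ) (2 ^ i * Z ^ k) hd1 hdd hJ e3
    refine dual M (fun j I => (χ j).χ I) hΔ0 (fun ε => ?_) c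
    have e8 := hs F hTC (2 ^ i * Z ^ k) (Z ^ B) e5 hN1 e6 J 𝔣 χ hf0 hfN hpn ε M hM
    refine e8.trans (mul_le_mul_of_nonneg_right ?_ (Finset.sum_nonneg fun j _ => by positivity))
    rw [hΔdef]
    exact amp_delta n k hk C₁ hC₁ Z _ _ hZ e3 e4 e7
  have h1 := amp_sum k hk Z hZ J (fun j => (χ j).χ) Q hQ y hy Δ hΔ0 hD
  have h2 : k * (Δ * ((k : ℝ) ^ k * (Q.card : ℝ) ^ k)) ≤
      C' * (Z ^ (2 * k) * Real.log Z ^ n) := by
    have e1 : (Q.card : ℝ) ^ k ≤ (b' * Z) ^ k :=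
      pow_le_pow_left₀ (Nat.cast_nonneg _) (hQc.trans (mul_le_mul_of_nonneg_right hbb hZ0.le)) _
    have e2 : k * (Δ * ((k : ℝ) ^ k * (Q.card : ℝ) ^ k)) ≤
        k * (Δ * ((k : ℝ) ^ k * (b' * Z) ^ k)) := by
      gcongr
    refine e2.trans (le_of_eq ?_)
    rw [hC', hΔdef, mul_pow (2 * (k : ℝ)) (Real.log Z) n, mul_pow b' Z k]
    ring
  have h3 : C' * (Z ^ (2 * k) * Real.log Z ^ n) ≤
      (C' * 2 ^ n * (Z * Real.log Z ^ n)) ^ (2 * k) := by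
    have e1 : C' ≤ C' ^ (2 * k) := by
      calc C' = C' ^ 1 := (pow_one C').symm
        _ ≤ C' ^ (2 * k) := pow_le_pow_right₀ hC'1 (by omega)
    have e2 : Real.log Z ^ n ≤ (2 ^ n * Real.log Z ^ n) ^ (2 * k) := by
      have e3 : 1 ≤ 2 * Real.log Z := by linarith
      have e4 : 1 ≤ 2 ^ n * Real.log Z ^ n := by
        rw [← mul_pow]
        exact one_le_pow₀ e3
      have e5 : Real.log Z ^ n ≤ 2 ^ n * Real.log Z ^ n := by
        have e6 : (1 : ℝ) ≤ 2 ^ n := one_le_pow₀ (by norm_num)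
        have e7 : 0 ≤ Real.log Z ^ n := by
          have : 0 ≤ Real.log Z := by linarith
          positivity
        nlinarith
      refine e5.trans ?_
      calc 2 ^ n * Real.log Z ^ n = (2 ^ n * Real.log Z ^ n) ^ 1 := (pow_one _).symm
        _ ≤ _ := pow_le_pow_right₀ e4 (by omega)
    have e8 : (C' * 2 ^ n * (Z * Real.log Z ^ n)) ^ (2 * k) =
        C' ^ (2 * k) * (Z ^ (2 * k) * (2 ^ n * Real.log Z ^ n) ^ (2 * k)) := by
      rw [← mul_pow, ← mul_pow]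
      congr 1
      ring
    rw [e8]
    have e9 : 0 ≤ Real.log Z := by linarith
    gcongr
  have h4 := amp_holder (fun j => ‖∑ v ∈ Q, y v * (χ j).χ v.asIdeal‖) (fun j => norm_nonneg _) k hk
    (C' * 2 ^ n * (Z * Real.log Z ^ n)) (by
      have : 0 ≤ Real.log Z := by linarith
      have : 0 < C' := by linarith
      positivity) (h1.trans (h2.trans h3))
  refine h4.trans (le_of_eq ?_)
  ring

end H57.TLS
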