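import Pool.Agent.H57.TLS.Def
import Pool.Agent.H36.QA.Cov
import Pool.Agent.H36.QA.CR
import Pool.Agent.H36.QA.Latt

/-!
[H57 TLS BOX]  The points of a coset of an ideal in a box, uniformly in the totally complex field of degree `n` (80-130 lines).

`ideal_lattice n F hF 𝔞` gives the lattice `L = {mixedEmbedding α : α ∈ 𝔞}`, its fundamental domain `D`,
`volume D = N𝔞 (1/2)^(n/2) √dd`. `cov_radius n` gives `C₀, A`: every point is within `(C₀ dd^A N𝔞)^(1/n) ≤ ρ` of `L`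
(`C = max C₀ ..`; from `‖x - l‖ ^ n ≤ C₀ dd^A N𝔞 ≤ ρ ^ n`: `‖x - l‖ ≤ ρ`, `pow_le_pow_left`). The box `Bx R α` is `‖mixedEmbedding α‖ ≤ R`
(`norm_le_iff_tc`, all infinite places are complex: `IsTotallyComplex.isComplex`). `S = closedBall 0 R`; `cr_upper` with
`S'' = closedBall 0 (R + ρ)`, `cr_lower` with `S' = closedBall 0 (R - ρ)` (if `ρ = R` it is a point, volume `0` or use `ball`).
Volume of `closedBall 0 r` (`r ≥ 0`) in the mixed space of a totally complex field: `(π r²)^(n/2)`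
(the polydisc, see `Ev.lean` (`PD`) in H36/QA for the computation; `2 * card (InfinitePlace F) = n`).
So `#{α} (1/2)^(n/2) N𝔞 √dd` is between `π^(n/2) (R - ρ)^n` and `π^(n/2) (R + ρ)^n`, and `(R + ρ)^n - R^n ≤ n 2^n R^(n-1) ρ`,
`R^n - (R - ρ)^n ≤ n R^(n-1) ρ` for `0 < ρ ≤ R` (induction on `n` or `abs_pow_sub_pow_le`-type lemmas).
-/

set_option autoImplicit false

open scoped NumberField
open NumberField H63.MA H36.QA

noncomputable section

namespace H57.TLS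

/-- `(2π)^(n/2)` -/
def kpn (n : ℕ) : ℝ := (2 * Real.pi) ^ (n / 2)

theorem kpn_pos (n : ℕ) : 0 < kpn n := by
  unfold kpn
  have := Real.pi_pos
  positivity

theorem box_card (n : ℕ) (F : Type) [Field F] [NumberField F] (hF : TC F n) :
    2 * Fintype.card (InfinitePlace F) = n := by
  classical
  have htc := hF.1
  have hmult : ∀ w : InfinitePlace F, w.mult = 2 := fun w =>
    InfinitePlace.mult_isComplex ⟨w, IsTotallyComplex.isComplex w⟩
  have h1 := InfinitePlace.sum_mult_eq (K := F)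
  simp only [hmult] at h1
  rw [Finset.sum_const, Finset.card_univ, smul_eq_mul, hF.2] at h1
  omega

open Classical in
/-- the volume of the cube -/
theorem box_vol (n : ℕ) (F : Type) [Field F] [NumberField F] (hF : TC F n) (r : ℝ) (hr : 0 ≤ r) :
    MeasurableSet (PD F 0 (fun _ => r)) ∧
      MeasureTheory.volume (PD F 0 (fun _ => r)) = ENNReal.ofReal (Real.pi ^ (n / 2) * r ^ n) := by
  classical
  obtain ⟨h1, h2⟩ := polydisc_volume n F hF 0 (fun _ => r) (fun _ => hr)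
  refine ⟨h1, ?_⟩
  rw [h2, Finset.prod_const, Finset.card_univ, ← pow_mul, box_card n F hF]

/-- differences of powers -/
theorem box_pow (n : ℕ) (R ρ : ℝ) (hρ : 0 < ρ) (hR : ρ ≤ R) :
    (R + ρ) ^ n - R ^ n ≤ n * 2 ^ n * (R ^ (n - 1) * ρ) ∧
      R ^ n - (R - ρ) ^ n ≤ n * 2 ^ n * (R ^ (n - 1) * ρ) := by
  have hR0 : 0 < R := by linarith
  have h2 : (2 : ℝ) ^ (n - 1) ≤ 2 ^ n := pow_le_pow_right₀ (by norm_num) (by omega)
  have hpos : 0 ≤ R ^ (n - 1) * ρ := by positivity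
  constructor
  · have h1 := abs_pow_sub_pow_le (R + ρ) R n
    rw [show R + ρ - R = ρ by ring, abs_of_pos hρ, abs_of_pos (by linarith : 0 < R + ρ),
      abs_of_pos hR0, max_eq_left (by linarith : R ≤ R + ρ)] at h1
    have h3 : (R + ρ) ^ (n - 1) ≤ 2 ^ n * R ^ (n - 1) := by
      calc (R + ρ) ^ (n - 1) ≤ (2 * R) ^ (n - 1) := pow_le_pow_left₀ (by linarith) (by linarith) _
        _ = 2 ^ (n - 1) * R ^ (n - 1) := mul_pow _ _ _
        _ ≤ 2 ^ n * R ^ (n - 1) := mul_le_mul_of_nonneg_right h2 (by positivity)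
    have h4 : ρ * n * (R + ρ) ^ (n - 1) ≤ ρ * n * (2 ^ n * R ^ (n - 1)) :=
      mul_le_mul_of_nonneg_left h3 (by positivity)
    calc (R + ρ) ^ n - R ^ n ≤ |(R + ρ) ^ n - R ^ n| := le_abs_self _
      _ ≤ ρ * n * (R + ρ) ^ (n - 1) := h1
      _ ≤ ρ * n * (2 ^ n * R ^ (n - 1)) := h4
      _ = n * 2 ^ n * (R ^ (n - 1) * ρ) := by ring
  · have h1 := abs_pow_sub_pow_le R (R - ρ) n
    rw [show R - (R - ρ) = ρ by ring, abs_of_pos hρ, abs_of_nonneg (by linarith : 0 ≤ R - ρ),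
      abs_of_pos hR0, max_eq_left (by linarith : R - ρ ≤ R)] at h1
    have h3 : R ^ (n - 1) ≤ 2 ^ n * R ^ (n - 1) :=
      le_mul_of_one_le_left (by positivity) (one_le_pow₀ (by norm_num))
    have h4 : ρ * n * R ^ (n - 1) ≤ ρ * n * (2 ^ n * R ^ (n - 1)) :=
      mul_le_mul_of_nonneg_left h3 (by positivity)
    calc R ^ n - (R - ρ) ^ n ≤ |R ^ n - (R - ρ) ^ n| := le_abs_self _
      _ ≤ ρ * n * R ^ (n - 1) := h1
      _ ≤ ρ * n * (2 ^ n * R ^ (n - 1)) := h4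
      _ = n * 2 ^ n * (R ^ (n - 1) * ρ) := by ring

theorem box_norm (F : Type) [Field F] [NumberField F] (α : F)
    (w : {w : InfinitePlace F // w.IsComplex}) : ‖(mixedEmbedding F α).2 w‖ = w.1 α := by
  rw [mixedEmbedding.mixedEmbedding_apply_isComplex, InfinitePlace.norm_embedding_eq]

theorem box_mem (n : ℕ) (F : Type) [Field F] [NumberField F] (hF : TC F n) (R : ℝ) (α : 𝓞 F) :
    mixedEmbedding F (α : F) ∈ PD F 0 (fun _ => R) ↔ Bx R α := by
  have htc := hF.1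
  constructor
  · intro h w
    have h1 := h ⟨w, IsTotallyComplex.isComplex w⟩
    have h2 : (mixedEmbedding F (α : F)).2 ⟨w, IsTotallyComplex.isComplex w⟩ -
        (0 : mixedEmbedding.mixedSpace F).2 ⟨w, IsTotallyComplex.isComplex w⟩ =
        (mixedEmbedding F (α : F)).2 ⟨w, IsTotallyComplex.isComplex w⟩ := sub_zero _
    rw [h2, box_norm] at h1
    exact h1
  · intro h w
    have h2 : (mixedEmbedding F (α : F)).2 w - (0 : mixedEmbedding.mixedSpace F).2 w =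
        (mixedEmbedding F (α : F)).2 w := sub_zero _
    rw [h2, box_norm]
    exact h w.1

theorem box_count (n : ℕ) (hn : 0 < n) : ∃ C : ℝ, 1 ≤ C ∧ ∃ A : ℕ, ∀ (F : Type) [Field F] [NumberField F], TC F n →
    ∀ 𝔞 : Ideal (𝓞 F), 𝔞 ≠ ⊥ → ∀ R ρ : ℝ, 0 < ρ → ρ ≤ R → C * dd F ^ A * Ideal.absNorm 𝔞 ≤ ρ ^ n → ∀ v : 𝓞 F,
      |(({α : 𝓞 F | α - v ∈ 𝔞 ∧ Bx R α}.ncard : ℕ) : ℝ) * (Ideal.absNorm 𝔞 * Real.sqrt (dd F)) - kpn n * R ^ n| ≤
        C * (R ^ (n - 1) * ρ) := by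
  classical
  obtain ⟨C₀, hC₀, A, hcov⟩ := cov_radius n
  have hk := kpn_pos n
  have hK : 0 ≤ kpn n * (n * 2 ^ n) := by positivity
  refine ⟨C₀ + kpn n * (n * 2 ^ n), by linarith, A, ?_⟩
  intro F _ _ hF 𝔞 h𝔞 R ρ hρ hρR hbig v
  have htc := hF.1
  have hR0 : 0 < R := by linarith
  have hddA : 0 ≤ dd F ^ A := pow_nonneg (dd_pos F).le _
  obtain ⟨L, D, hLc, hD, hDvol, hmem, -⟩ := ideal_lattice n F hF 𝔞 h𝔞
  have hRad : ∀ x : mixedEmbedding.mixedSpace F, ∃ l ∈ L, ‖x - l‖ ≤ ρ := by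
    intro x
    obtain ⟨α, hα, hx⟩ := hcov F hF 𝔞 h𝔞 x
    refine ⟨mixedEmbedding F (α : F), (hmem _).2 ⟨α, hα, rfl⟩, ?_⟩
    refine le_of_pow_le_pow_left₀ hn.ne' hρ.le (hx.trans (le_trans ?_ hbig))
    refine mul_le_mul_of_nonneg_right (mul_le_mul_of_nonneg_right ?_ hddA) (Nat.cast_nonneg _)
    linarith
  -- the set of lattice points
  set T : Set (𝓞 F) := {α : 𝓞 F | α - v ∈ 𝔞 ∧ Bx R α} with hT
  have hTfin : T.Finite := (finite_bx R).subset fun _ h => h.2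
  set S : Set (mixedEmbedding.mixedSpace F) := PD F 0 (fun _ => R) with hS
  have hinj : Function.Injective (fun α : 𝓞 F => mixedEmbedding F (α : F)) := by
    intro a b hab
    exact RingOfIntegers.ext (mixedEmbedding_injective F hab)
  have hset : {x : mixedEmbedding.mixedSpace F | x - mixedEmbedding F (v : F) ∈ L ∧ x ∈ S} =
      (fun α : 𝓞 F => mixedEmbedding F (α : F)) '' T := by
    ext x
    constructor
    · rintro ⟨h1, h2⟩
      obtain ⟨β, hβ, hx⟩ := (hmem _).1 h1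
      have hx' : x = mixedEmbedding F ((β + v : 𝓞 F) : F) := by
        have h3 : ((β + v : 𝓞 F) : F) = (β : F) + (v : F) := map_add _ _ _
        rw [h3, map_add, hx, sub_add_cancel]
      refine ⟨β + v, ⟨?_, ?_⟩, hx'.symm⟩
      · rw [add_sub_cancel_right]
        exact hβ
      · rw [hx'] at h2
        exact (box_mem n F hF R _).1 h2
    · rintro ⟨α, ⟨h1, h2⟩, rfl⟩
      refine ⟨?_, (box_mem n F hF R α).2 h2⟩
      refine (hmem _).2 ⟨α - v, h1, ?_⟩
      have h3 : ((α - v : 𝓞 F) : F) = (α : F) - (v : F) := map_sub _ _ _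
      rw [h3, map_sub]
  have hfin : {x : mixedEmbedding.mixedSpace F | x - mixedEmbedding F (v : F) ∈ L ∧ x ∈ S}.Finite := by
    rw [hset]
    exact hTfin.image _
  have hcard : {x : mixedEmbedding.mixedSpace F | x - mixedEmbedding F (v : F) ∈ L ∧ x ∈ S}.ncard =
      T.ncard := by
    rw [hset, Set.ncard_image_of_injective _ hinj]
  have hnorm2 : ∀ (y : mixedEmbedding.mixedSpace F) (w : {w : InfinitePlace F // w.IsComplex}),
      ‖y.2 w‖ ≤ ‖y‖ := fun y w => (norm_le_iff_tc n F hF y ‖y‖ (norm_nonneg _)).1 le_rfl w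
  have hgrow : ∀ r : ℝ, ∀ x ∈ PD F 0 (fun _ => r), ∀ y : mixedEmbedding.mixedSpace F, ‖y‖ ≤ ρ →
      x + y ∈ PD F 0 (fun _ => r + ρ) := by
    intro r x hx y hy w
    have h1 : (x + y).2 w - (0 : mixedEmbedding.mixedSpace F).2 w =
        (x.2 w - (0 : mixedEmbedding.mixedSpace F).2 w) + y.2 w := by
      have h2 : (x + y).2 w = x.2 w + y.2 w := rfl
      rw [h2]
      ring
    rw [h1]
    exact (norm_add_le _ _).trans (add_le_add (hx w) ((hnorm2 y w).trans hy))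
  have hDfin : MeasureTheory.volume D ≠ ⊤ := by
    rw [hDvol]
    exact ENNReal.ofReal_ne_top
  have hNa : 0 ≤ (Ideal.absNorm 𝔞 : ℝ) * (1 / 2) ^ (n / 2) * Real.sqrt (dd F) := by positivity
  have h22 : ((1 : ℝ) / 2) ^ (n / 2) * 2 ^ (n / 2) = 1 := by
    rw [← mul_pow]
    norm_num
  have hkp : Real.pi ^ (n / 2) * 2 ^ (n / 2) = kpn n := by
    unfold kpn
    rw [← mul_pow, mul_comm Real.pi 2]
  have hcast : ((T.ncard : ℕ) : ENNReal) = ENNReal.ofReal (T.ncard : ℝ) := by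
    rw [ENNReal.ofReal_natCast]
  -- lower bound
  have hlow : kpn n * (R - ρ) ^ n ≤ (T.ncard : ℝ) * (Ideal.absNorm 𝔞 * Real.sqrt (dd F)) := by
    obtain ⟨hm, hv⟩ := box_vol n F hF (R - ρ) (by linarith)
    have h1 := cr_lower MeasureTheory.volume L D hD hDfin ρ hRad (mixedEmbedding F (v : F)) S
      (PD F 0 (fun _ => R - ρ)) hm (fun x hx y hy => by
        have h2 := hgrow (R - ρ) x hx y hy
        rw [sub_add_cancel] at h2
        exact h2) hfin
    rw [hv, hDvol, hcard, hcast, ← ENNReal.ofReal_mul (Nat.cast_nonneg _)] at h1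
    have h2 := (ENNReal.ofReal_le_ofReal_iff (mul_nonneg (Nat.cast_nonneg _) hNa)).1 h1
    have h3 := mul_le_mul_of_nonneg_right h2 (by positivity : (0 : ℝ) ≤ 2 ^ (n / 2))
    calc kpn n * (R - ρ) ^ n = Real.pi ^ (n / 2) * (R - ρ) ^ n * 2 ^ (n / 2) := by
          rw [← hkp]
          ring
      _ ≤ _ := h3
      _ = (T.ncard : ℝ) * (Ideal.absNorm 𝔞 * Real.sqrt (dd F)) *
          ((1 / 2) ^ (n / 2) * 2 ^ (n / 2)) := by ring
      _ = _ := by rw [h22, mul_one]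
  -- upper bound
  have hupp : (T.ncard : ℝ) * (Ideal.absNorm 𝔞 * Real.sqrt (dd F)) ≤ kpn n * (R + ρ) ^ n := by
    obtain ⟨hm, hv⟩ := box_vol n F hF (R + ρ) (by linarith)
    have h1 := cr_upper MeasureTheory.volume L D hD ρ hRad (mixedEmbedding F (v : F)) S
      (PD F 0 (fun _ => R + ρ)) hm (hgrow R) hfin.toFinset (fun x hx => hfin.mem_toFinset.1 hx)
    rw [hv, hDvol, ← Set.ncard_eq_toFinset_card _ hfin, hcard, hcast,
      ← ENNReal.ofReal_mul (Nat.cast_nonneg _)] at h1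
    have h2 := (ENNReal.ofReal_le_ofReal_iff (by
      have : 0 ≤ R + ρ := by linarith
      have := Real.pi_pos
      positivity)).1 h1
    have h3 := mul_le_mul_of_nonneg_right h2 (by positivity : (0 : ℝ) ≤ 2 ^ (n / 2))
    calc (T.ncard : ℝ) * (Ideal.absNorm 𝔞 * Real.sqrt (dd F))
        = (T.ncard : ℝ) * (Ideal.absNorm 𝔞 * Real.sqrt (dd F)) *
          ((1 / 2) ^ (n / 2) * 2 ^ (n / 2)) := by rw [h22, mul_one]
      _ = (T.ncard : ℝ) * ((Ideal.absNorm 𝔞 : ℝ) * (1 / 2) ^ (n / 2) * Real.sqrt (dd F)) *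
          2 ^ (n / 2) := by ring
      _ ≤ _ := h3
      _ = kpn n * (R + ρ) ^ n := by
          rw [← hkp]
          ring
  obtain ⟨hp1, hp2⟩ := box_pow n R ρ hρ hρR
  have hp1' := mul_le_mul_of_nonneg_left hp1 hk.le
  have hp2' := mul_le_mul_of_nonneg_left hp2 hk.le
  have hfinal : kpn n * (n * 2 ^ n * (R ^ (n - 1) * ρ)) ≤
      (C₀ + kpn n * (n * 2 ^ n)) * (R ^ (n - 1) * ρ) := by
    have h1 : 0 ≤ R ^ (n - 1) * ρ := by positivity
    nlinarith
  rw [abs_le]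
  constructor
  · rw [mul_sub] at hp2'
    linarith
  · rw [mul_sub] at hp1'
    linarith

end H57.TLS
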