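import Pool.Agent.H57.TLS.Box

/-!
[H57 TLS CHS]  A ray class character on the elements of an ideal in a box.

1. The complete sum over `𝔫 / 𝔫 𝔣` vanishes: `idorth_key` with `J = (x)`, `χ((x)) ≠ 1`.
2. `∑ α ∈ bxs 𝔫 R, fj = ∑_r fj(r) #{α : α - r ∈ 𝔫 𝔣, Bx R α}` (at the class of `0` both sides vanish, because `𝔣 ≠ ⊤`); `box_count` for
`𝔞 = 𝔫 𝔣`; there are at most `N𝔣` classes (`chs_card`).
-/

set_option autoImplicit false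

open scoped NumberField
open NumberField H63.MA H36.QA

noncomputable section

namespace H57.TLS

private theorem chs_card {F : Type} [Field F] [NumberField F] {𝔫 𝔣 : Ideal (𝓞 F)} (h𝔫 : 𝔫 ≠ ⊥) :
    Set.ncard {r : 𝓞 F ⧸ (𝔫 * 𝔣) | ∃ x ∈ 𝔫, Ideal.Quotient.mk (𝔫 * 𝔣) x = r} ≤
      Ideal.absNorm 𝔣 := by
  have hle : 𝔫 * 𝔣 ≤ 𝔫 := Ideal.mul_le_left
  have hle' : (𝔫 * 𝔣).toAddSubgroup ≤ 𝔫.toAddSubgroup := fun x hx => hle hx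
  have h1 := AddSubgroup.relIndex_mul_index hle'
  have h2 : ∀ I : Ideal (𝓞 F), I.toAddSubgroup.index = Ideal.absNorm I := fun I => rfl
  rw [h2, h2, map_mul, mul_comm] at h1
  have h3 : Ideal.absNorm 𝔫 ≠ 0 := fun h => h𝔫 (Ideal.absNorm_eq_zero_iff.1 h)
  have h4 := Nat.eq_of_mul_eq_mul_left (Nat.pos_of_ne_zero h3) h1
  let f : 𝔫.toAddSubgroup →+ 𝓞 F ⧸ (𝔫 * 𝔣) :=
    (Ideal.Quotient.mk (𝔫 * 𝔣)).toAddMonoidHom.comp 𝔫.toAddSubgroup.subtype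
  have h5 : f.ker = (𝔫 * 𝔣).toAddSubgroup.addSubgroupOf 𝔫.toAddSubgroup := by
    ext x
    rw [AddMonoidHom.mem_ker, AddSubgroup.mem_addSubgroupOf]
    exact Ideal.Quotient.eq_zero_iff_mem
  have h6 := AddSubgroup.index_ker f
  rw [h5] at h6
  have h7 : (𝔫 * 𝔣).toAddSubgroup.relIndex 𝔫.toAddSubgroup =
      ((𝔫 * 𝔣).toAddSubgroup.addSubgroupOf 𝔫.toAddSubgroup).index := rfl
  rw [← h4, h7, h6]
  have h8 : {r : 𝓞 F ⧸ (𝔫 * 𝔣) | ∃ x ∈ 𝔫, Ideal.Quotient.mk (𝔫 * 𝔣) x = r} =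
      (f.range : Set (𝓞 F ⧸ (𝔫 * 𝔣))) := by
    ext r
    constructor
    · rintro ⟨x, hx, rfl⟩
      exact ⟨⟨x, hx⟩, rfl⟩
    · rintro ⟨⟨x, hx⟩, rfl⟩
      exact ⟨x, hx, rfl⟩
  rw [h8]
  exact le_of_eq rfl

private theorem chs_norm {F : Type} [Field F] [NumberField F] {𝔣 : Ideal (𝓞 F)} (χ : RC F 𝔣)
    {I : Ideal (𝓞 F)} (hI : I ≠ ⊥) : ‖χ.χ I‖ ≤ 1 := by
  by_cases h : IsCoprime I 𝔣
  · rw [χ.norm_one I hI h]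
  · rw [χ.zero_of I h, norm_zero]
    exact zero_le_one

private theorem chs_cast (c : ℕ) (W k : ℝ) : ‖((c : ℕ) : ℂ) * (W : ℂ) - (k : ℂ)‖ = |(c : ℝ) * W - k| := by
  have h : ((c : ℕ) : ℂ) * (W : ℂ) - (k : ℂ) = (((c : ℝ) * W - k : ℝ) : ℂ) := by
    push_cast
    ring
  rw [h, Complex.norm_real, Real.norm_eq_abs]

theorem chs_one (n : ℕ) (hn : 0 < n) : ∃ C : ℝ, 1 ≤ C ∧ ∃ A : ℕ, ∀ (F : Type) [Field F] [NumberField F], TC F n →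
    ∀ 𝔣 : Ideal (𝓞 F), 𝔣 ≠ ⊥ → ∀ χ : RC F 𝔣, PN χ → ∀ 𝔫 : Ideal (𝓞 F), 𝔫 ≠ ⊥ → ∀ R ρ : ℝ, 0 < ρ → ρ ≤ R →
      C * dd F ^ A * (Ideal.absNorm 𝔫 * Ideal.absNorm 𝔣) ≤ ρ ^ n →
      ‖∑ α ∈ bxs 𝔫 R, fj χ 𝔫 α‖ * (Ideal.absNorm 𝔫 * Real.sqrt (dd F)) ≤ C * (R ^ (n - 1) * ρ) := by
  classical
  obtain ⟨C, hC, A, hbox⟩ := box_count n hn
  refine ⟨C, hC, A, ?_⟩
  intro F _ _ hF 𝔣 h𝔣 χ hχ 𝔫 h𝔫 R ρ hρ hρR hyp
  obtain ⟨x, hx0, hxc, hx1⟩ := hχ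
  have hR : 0 < R := lt_of_lt_of_le hρ hρR
  have hN : 𝔫 * 𝔣 ≠ ⊥ := mul_ne_zero h𝔫 h𝔣
  have hNm : (Ideal.absNorm (𝔫 * 𝔣) : ℝ) = Ideal.absNorm 𝔫 * Ideal.absNorm 𝔣 := by
    rw [map_mul]
    push_cast
    rfl
  have hM : Mres χ 𝔫 = 0 := by
    have h := idorth_key h𝔣 χ h𝔫 h𝔫 hxc (a := x) (b := 1) hx0 one_ne_zero
      (by rw [Ideal.span_singleton_one, Ideal.top_mul])
    have h2 : (χ.χ (Ideal.span {x}) - 1) * Mres χ 𝔫 = 0 := by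
      rw [sub_mul, ← h, one_mul, sub_self]
    exact (mul_eq_zero.1 h2).resolve_left (sub_ne_zero.2 hx1)
  have h𝔣t : 𝔣 ≠ ⊤ := by
    rintro rfl
    exact hx1 (χ.ray x hx0 trivial)
  have hfin : Finite (𝓞 F ⧸ (𝔫 * 𝔣)) := Ideal.finiteQuotientOfFreeOfNeBot _ hN
  have : Fintype (𝓞 F ⧸ (𝔫 * 𝔣)) := Fintype.ofFinite _
  have hM' : ∑ r : 𝓞 F ⧸ (𝔫 * 𝔣), idorthF χ 𝔫 r = 0 := by
    rw [← hM, ← finsum_eq_sum_of_fintype]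
    rfl
  -- the sum over the box
  have hS : ∑ α ∈ bxs 𝔫 R, fj χ 𝔫 α = ∑ r : 𝓞 F ⧸ (𝔫 * 𝔣),
      ((((bxs 𝔫 R).filter fun α => Ideal.Quotient.mk (𝔫 * 𝔣) α = r).card : ℕ) : ℂ) *
        idorthF χ 𝔫 r := by
    rw [← Finset.sum_fiberwise (bxs 𝔫 R) (fun α => Ideal.Quotient.mk (𝔫 * 𝔣) α)]
    refine Finset.sum_congr rfl fun r _ => ?_
    rw [← nsmul_eq_mul, ← Finset.sum_const]
    refine Finset.sum_congr rfl fun α hα => ?_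
    obtain ⟨h1, h2⟩ := Finset.mem_filter.1 hα
    obtain ⟨h3, h4, -⟩ := mem_bxs.1 h1
    rw [← h2, idorthF_eq h𝔣 χ h𝔫 h3 h4]
  set W : ℝ := Ideal.absNorm (𝔫 * 𝔣) * Real.sqrt (dd F) with hW
  have hkey : ∀ r : 𝓞 F ⧸ (𝔫 * 𝔣),
      ‖(((((bxs 𝔫 R).filter fun α => Ideal.Quotient.mk (𝔫 * 𝔣) α = r).card : ℕ) : ℂ) * (W : ℂ) -
        ((kpn n * R ^ n : ℝ) : ℂ)) * idorthF χ 𝔫 r‖ ≤
        if ∃ x ∈ 𝔫, Ideal.Quotient.mk (𝔫 * 𝔣) x = r then C * (R ^ (n - 1) * ρ) else 0 := by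
    intro r
    have hpos : 0 ≤ C * (R ^ (n - 1) * ρ) := by positivity
    by_cases hr : ∃ y ∈ 𝔫, y ≠ 0 ∧ Ideal.Quotient.mk (𝔫 * 𝔣) y = r
    · obtain ⟨y, hy, hy0, rfl⟩ := hr
      rw [if_pos ⟨y, hy, rfl⟩, idorthF_eq h𝔣 χ h𝔫 hy hy0]
      obtain ⟨m, hm⟩ := idPer_exists hy
      have hm0 := idPer_ne_bot hy0 hm
      rw [fj_spec χ h𝔫 hm]
      by_cases hyN : y ∈ 𝔫 * 𝔣
      · have h1 : ¬ IsCoprime m 𝔣 := by
          intro hc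
          have h2 : 𝔫 * 𝔣 ∣ m * 𝔫 := by
            rw [← hm]
            exact Ideal.dvd_span_singleton.2 hyN
          have h3 : 𝔣 ∣ m := by
            rw [mul_comm 𝔫 𝔣] at h2
            exact (mul_dvd_mul_iff_right h𝔫).1 h2
          have h4 : IsUnit 𝔣 := hc.isUnit_of_dvd' h3 dvd_rfl
          exact h𝔣t (by rw [← Ideal.one_eq_top]; exact isUnit_iff_eq_one.1 h4)
        rw [χ.zero_of m h1, mul_zero, norm_zero]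
        exact hpos
      · have hset : (((bxs 𝔫 R).filter fun α =>
            Ideal.Quotient.mk (𝔫 * 𝔣) α = Ideal.Quotient.mk (𝔫 * 𝔣) y : Finset (𝓞 F)) :
            Set (𝓞 F)) = {α : 𝓞 F | α - y ∈ 𝔫 * 𝔣 ∧ Bx R α} := by
          ext α
          rw [Finset.mem_coe, Finset.mem_filter, mem_bxs, Ideal.Quotient.eq]
          constructor
          · rintro ⟨⟨-, -, h1⟩, h2⟩
            exact ⟨h2, h1⟩
          · rintro ⟨h1, h2⟩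
            refine ⟨⟨?_, ?_, h2⟩, h1⟩
            · have h3 : α = (α - y) + y := by ring
              rw [h3]
              exact 𝔫.add_mem (Ideal.mul_le_left h1) hy
            · rintro rfl
              rw [zero_sub] at h1
              exact hyN (neg_mem_iff.1 h1)
        have hcard : ((bxs 𝔫 R).filter fun α =>
            Ideal.Quotient.mk (𝔫 * 𝔣) α = Ideal.Quotient.mk (𝔫 * 𝔣) y).card =
            {α : 𝓞 F | α - y ∈ 𝔫 * 𝔣 ∧ Bx R α}.ncard := by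
          rw [← hset, Set.ncard_coe_finset]
        rw [hcard]
        have h1 := hbox F hF (𝔫 * 𝔣) hN R ρ hρ hρR (by rw [hNm]; exact hyp) y
        rw [norm_mul, chs_cast]
        have h4 := mul_le_mul h1 (chs_norm χ hm0) (norm_nonneg _) hpos
        rw [mul_one] at h4
        exact h4
    · have h0 : idorthF χ 𝔫 r = 0 := dif_neg hr
      rw [h0, mul_zero, norm_zero]
      split_ifs
      · exact hpos
      · exact le_rfl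
  have hSW : (∑ α ∈ bxs 𝔫 R, fj χ 𝔫 α) * (W : ℂ) = ∑ r : 𝓞 F ⧸ (𝔫 * 𝔣),
      (((((bxs 𝔫 R).filter fun α => Ideal.Quotient.mk (𝔫 * 𝔣) α = r).card : ℕ) : ℂ) * (W : ℂ) -
        ((kpn n * R ^ n : ℝ) : ℂ)) * idorthF χ 𝔫 r := by
    have h1 : ∀ r : 𝓞 F ⧸ (𝔫 * 𝔣),
        (((((bxs 𝔫 R).filter fun α => Ideal.Quotient.mk (𝔫 * 𝔣) α = r).card : ℕ) : ℂ) * (W : ℂ) -
        ((kpn n * R ^ n : ℝ) : ℂ)) * idorthF χ 𝔫 r =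
        ((((bxs 𝔫 R).filter fun α => Ideal.Quotient.mk (𝔫 * 𝔣) α = r).card : ℕ) : ℂ) *
          idorthF χ 𝔫 r * (W : ℂ) - ((kpn n * R ^ n : ℝ) : ℂ) * idorthF χ 𝔫 r := fun r => by ring
    rw [Finset.sum_congr rfl fun r _ => h1 r, Finset.sum_sub_distrib, ← Finset.sum_mul,
      ← Finset.mul_sum, hM', mul_zero, sub_zero, hS]
  have hW0 : 0 ≤ W := by positivity
  have hf0 : 0 < (Ideal.absNorm 𝔣 : ℝ) := by
    have : Ideal.absNorm 𝔣 ≠ 0 := fun h => h𝔣 (Ideal.absNorm_eq_zero_iff.1 h)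
    exact_mod_cast Nat.pos_of_ne_zero this
  have hfinal : ‖∑ α ∈ bxs 𝔫 R, fj χ 𝔫 α‖ * W ≤
      Ideal.absNorm 𝔣 * (C * (R ^ (n - 1) * ρ)) := by
    have h1 : ‖∑ α ∈ bxs 𝔫 R, fj χ 𝔫 α‖ * W = ‖(∑ α ∈ bxs 𝔫 R, fj χ 𝔫 α) * (W : ℂ)‖ := by
      rw [norm_mul, Complex.norm_real, Real.norm_eq_abs, abs_of_nonneg hW0]
    rw [h1, hSW]
    refine (norm_sum_le _ _).trans ((Finset.sum_le_sum fun r _ => hkey r).trans ?_)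
    rw [← Finset.sum_filter, Finset.sum_const, nsmul_eq_mul]
    refine mul_le_mul_of_nonneg_right ?_ (by positivity)
    have h2 := chs_card (F := F) (𝔫 := 𝔫) (𝔣 := 𝔣) h𝔫
    have h3 : (Finset.univ.filter fun r : 𝓞 F ⧸ (𝔫 * 𝔣) =>
        ∃ x ∈ 𝔫, Ideal.Quotient.mk (𝔫 * 𝔣) x = r).card =
        {r : 𝓞 F ⧸ (𝔫 * 𝔣) | ∃ x ∈ 𝔫, Ideal.Quotient.mk (𝔫 * 𝔣) x = r}.ncard := by
      rw [← Set.ncard_coe_finset]
      congr 1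
      ext r
      simp
    rw [h3]
    exact_mod_cast h2
  have hWe : ‖∑ α ∈ bxs 𝔫 R, fj χ 𝔫 α‖ * W = Ideal.absNorm 𝔣 *
      (‖∑ α ∈ bxs 𝔫 R, fj χ 𝔫 α‖ * (Ideal.absNorm 𝔫 * Real.sqrt (dd F))) := by
    rw [hW, hNm]
    ring
  rw [hWe] at hfinal
  exact le_of_mul_le_mul_left hfinal hf0

end H57.TLS
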